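import Pool.Agent.NH56.HO.Stm
import Pool.Agent.NH56.HY.Bas
import Pool.Agent.NH56.HY.Trn

/-!
# Semisimplicity in all degrees
-/

set_option autoImplicit false

namespace Pool.Agent.NH56.HO

open Matrix Polynomial Filter Topology NumberField IsDedekindDomain Pool.Agent.NH56.HY

namespace SsfA

theorem equivF {ι : Type} [Fintype ι] [DecidableEq ι] {X : Coh ι} (hX : IsHyperKahler X)
    {F : Type} [Field F] [CharZero F] (T T' : Matrix ι ι F)
    (B B' : Matrix {a // X.deg a = 2} {a // X.deg a = 2} F)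
    (h : ∀ y : Matrix {a // X.deg a = 2} {a // X.deg a = 2} ℚ, yᵀ * X.q + X.q * y = 0 →
      T * X.δF F (y.map (algebraMap ℚ F)) * T' = X.δF F (B * y.map (algebraMap ℚ F) * B'))
    (x : Matrix {a // X.deg a = 2} {a // X.deg a = 2} F) (hx : X.IsSkew F x) :
    T * X.δF F x * T' = X.δF F (B * x * B') := by
  have h1 := BasP.skew_mem hX hx
  clear hx
  induction h1 using Submodule.span_induction with
  | mem x hx =>
    obtain ⟨r, hr, rfl⟩ := hx
    exact h r hr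
  | zero =>
    simp only [← BasP.dl_apply, mul_zero, zero_mul, map_zero]
  | add a b _ _ ha hb =>
    simp only [← BasP.dl_apply, mul_add, add_mul, map_add] at ha hb ⊢
    rw [ha, hb]
  | smul c a _ ha =>
    simp only [← BasP.dl_apply, Matrix.mul_smul, Matrix.smul_mul, map_smul] at ha ⊢
    rw [ha]

theorem com_map {ι : Type} [Fintype ι] [DecidableEq ι] {X : Coh ι} {F : Type} [Field F]
    [CharZero F] {B : Matrix ι ι ℚ} (hB : X.Com ℚ B) : X.Com F (B.map (algebraMap ℚ F)) := by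
  constructor
  · intro x
    have h : B * X.δ x = X.δ x * B := hB.1 x
    rw [← Matrix.map_mul, h, Matrix.map_mul]
  · have h := hB.2
    have h0 : X.H F = (X.H ℚ).map (algebraMap ℚ F) := by
      ext i j
      unfold Coh.H
      rw [Matrix.map_apply, Matrix.diagonal_apply, Matrix.diagonal_apply]
      split_ifs
      · rw [map_natCast]
      · rw [map_zero]
    rw [h0, ← Matrix.map_mul, h, Matrix.map_mul]

theorem exists_pow {K : Type} [Field K] [NumberField K] (U : Subgroup (GK K))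
    (hU : IsOpen (U : Set (GK K))) (g : GK K) : ∃ m : ℕ, 0 < m ∧ g ^ m ∈ U := by
  have : Finite (GK K ⧸ U) := Subgroup.quotient_finite_of_isOpen U hU
  have : U.FiniteIndex := Subgroup.finiteIndex_of_finite_quotient
  obtain ⟨m, h1, -, h2⟩ := Subgroup.exists_pow_mem_of_index_ne_zero
    (Subgroup.FiniteIndex.index_ne_zero (H := U)) g
  exact ⟨m, h1, h2⟩

end SsfA

open SsfA in
theorem t_SSF (hCMU : S_CMU) (hNUS : S_NUS) (hSSX : S_SSX) (hSSM : S_SSM) : S_SSF := by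
  intro K _ _ ℓ _ ι _ _ X S χ Pol ρ hX hR hHT g hg
  obtain ⟨U, hUo, hU⟩ := hCMU K ℓ ι X S χ Pol ρ hX hR (hNUS K ℓ ι X S χ Pol ρ hX hR hHT)
  obtain ⟨m, hm, hgm⟩ := exists_pow U hUo g
  rw [hSSX ℚ_[ℓ] (PadicAlgCl ℓ)] at hg ⊢
  have hc : ∀ y : Matrix {a // X.deg a = 2} {a // X.deg a = 2} ℚ,
      (y.map (algebraMap ℚ ℚ_[ℓ])).map (algebraMap ℚ_[ℓ] (PadicAlgCl ℓ)) =
        y.map (algebraMap ℚ (PadicAlgCl ℓ)) := by
    intro y
    ext i j
    change algebraMap ℚ_[ℓ] (PadicAlgCl ℓ) (algebraMap ℚ ℚ_[ℓ] (y i j)) =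
      algebraMap ℚ (PadicAlgCl ℓ) (y i j)
    rw [eq_ratCast (algebraMap ℚ ℚ_[ℓ]), eq_ratCast (algebraMap ℚ (PadicAlgCl ℓ)), map_ratCast]
  refine hSSM ι X hX (PadicAlgCl ℓ) ((ρ g).map (algebraMap ℚ_[ℓ] (PadicAlgCl ℓ)))
    ((ρ g⁻¹).map (algebraMap ℚ_[ℓ] (PadicAlgCl ℓ))) (algebraMap ℚ_[ℓ] (PadicAlgCl ℓ) (χ g ^ 2)) m
    ?_ ?_ hm ?_ ?_ ?_ hg
  · rw [← Matrix.map_mul, ← map_mul, mul_inv_cancel, map_one]
    exact Matrix.map_one _ (map_zero _) (map_one _)
  · intro a b hab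
    rw [Matrix.map_apply, hR.graded g a b hab, map_zero]
  · have h1 := congrArg (fun M => Matrix.map M (algebraMap ℚ_[ℓ] (PadicAlgCl ℓ)))
      (hR.similitude g)
    beta_reduce at h1
    rw [Matrix.map_mul, Matrix.map_mul, transpose_map, Trn78.mapsm, Trn78.qF_map] at h1
    exact h1
  · refine equivF hX _ _ _ _ ?_
    intro y hy
    have hy' : X.IsSkew ℚ_[ℓ] (y.map (algebraMap ℚ ℚ_[ℓ])) := by
      unfold Coh.IsSkew Coh.qF
      rw [← transpose_map, ← Matrix.map_mul, ← Matrix.map_mul,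
        ← Matrix.map_add _ (fun a b => map_add (algebraMap ℚ ℚ_[ℓ]) a b), hy]
      exact Matrix.map_zero _ (map_zero _)
    have h1 := congrArg (fun M => Matrix.map M (algebraMap ℚ_[ℓ] (PadicAlgCl ℓ)))
      (hR.equivariant g _ hy')
    beta_reduce at h1
    rw [Matrix.map_mul, Matrix.map_mul, Trn78.δF_map, Trn78.δF_map, Matrix.map_mul,
      Matrix.map_mul, hc] at h1
    exact h1
  · intro B hB
    have h1 := hU (g ^ m) hgm _ (com_map hB)
    have h2 := congrArg (fun M => Matrix.map M (algebraMap ℚ_[ℓ] (PadicAlgCl ℓ))) h1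
    beta_reduce at h2
    have h3 : (B.map (algebraMap ℚ ℚ_[ℓ])).map (algebraMap ℚ_[ℓ] (PadicAlgCl ℓ)) =
        B.map (algebraMap ℚ (PadicAlgCl ℓ)) := by
      ext i j
      change algebraMap ℚ_[ℓ] (PadicAlgCl ℓ) (algebraMap ℚ ℚ_[ℓ] (B i j)) =
        algebraMap ℚ (PadicAlgCl ℓ) (B i j)
      rw [eq_ratCast (algebraMap ℚ ℚ_[ℓ]), eq_ratCast (algebraMap ℚ (PadicAlgCl ℓ)), map_ratCast]
    have h4 : (ρ (g ^ m)).map (algebraMap ℚ_[ℓ] (PadicAlgCl ℓ)) =
        ((ρ g).map (algebraMap ℚ_[ℓ] (PadicAlgCl ℓ))) ^ m := by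
      rw [map_pow]
      exact map_pow (RingHom.mapMatrix (algebraMap ℚ_[ℓ] (PadicAlgCl ℓ))) (ρ g) m
    rw [Matrix.map_mul, Matrix.map_mul, h3, h4] at h2
    exact h2

end Pool.Agent.NH56.HO
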