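import Pool.Agent.NH56.HO.Def
import Pool.Agent.NH56.HY.Stm

/-!
# Ordinary and semisimple Frobenius elements of hyper-Kähler varieties: statements of the parts
-/

set_option autoImplicit false

namespace Pool.Agent.NH56.HO

open Matrix Polynomial Filter Topology NumberField IsDedekindDomain Pool.Agent.NH56.HY

/-! ### Ordinary places -/

/-- **MEQ**: the equality case of the convexity lemma -/
def S_MEQ : Prop := ∀ N H : Multiset ℝ, LiesAbove N H →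
  (N.map fun x => x ^ 2).sum = (H.map fun x => x ^ 2).sum → N = H

/-- **SSE**: at an ordinary place the sums of the squares of the Newton slopes and of the Hodge numbers
agree in all degrees -/
def S_SSE : Prop := ∀ (ι : Type) [Fintype ι] [DecidableEq ι] (X : Coh ι), IsHyperKahler X →
  ∀ (T T' N : Matrix ι ι ℂ) (φ : ℂ → ℝ) (A : ℂ → Prop) (μ : ℂ), T * T' = 1 → IsGraded X.deg T →
  IsAdd A (fun a => ((φ a : ℝ) : ℂ)) → (∀ a, T.charpoly.IsRoot a → A a) → A μ → φ μ = 2 →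
  (blk X.deg 2 T)ᵀ * X.qF ℂ * blk X.deg 2 T = μ • X.qF ℂ →
  (∀ x, X.IsSkew ℂ x → T * X.δF ℂ x * T' = X.δF ℂ (blk X.deg 2 T * x * blk X.deg 2 T')) →
  (∀ j, LiesAbove ((blk X.deg j T).charpoly.roots.map φ) (X.hodge j)) →
  ((blk X.deg 2 T).charpoly.roots.map fun a => (φ a - 1) ^ 2).sum = 2 →
  IsFn (fun a => ((φ a : ℝ) : ℂ)) T N →
  ∀ j, (((blk X.deg j T).charpoly.roots.map φ).map fun x => x ^ 2).sum =
    ((X.hodge j).map fun x => x ^ 2).sum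

/-- **ONE**: a place which is ordinary in degree two is ordinary in all degrees -/
def S_ONE : Prop := ∀ (K : Type) [Field K] [NumberField K] (ℓ : ℕ) [Fact ℓ.Prime] (ι : Type)
  [Fintype ι] [DecidableEq ι] (X : Coh ι) (S : Finset ℕ) (χ : GK K →* ℚ_[ℓ])
  (Pol : HeightOneSpectrum (𝓞 K) → ℕ → ℤ[X]) (ρ : GK K →* Matrix ι ι ℚ_[ℓ]),
  IsHyperKahler X → IsRealization X S χ Pol ρ → ∀ (p : ℕ) [Fact p.Prime], p ∉ S →
  ∀ v, Ideal.absNorm v.asIdeal = p →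
  ¬ (p : ℤ) ∣ (Pol v 2).coeff (Fintype.card {a // X.deg a = 2} - 1) →
  ∀ j, newton p (Pol v j) = X.hodge j

/-- **NUS**: the representation in degree two is not unipotent, by the theorem of Sen -/
def S_NUS : Prop := ∀ (K : Type) [Field K] [NumberField K] (ℓ : ℕ) [Fact ℓ.Prime] (ι : Type)
  [Fintype ι] [DecidableEq ι] (X : Coh ι) (S : Finset ℕ) (χ : GK K →* ℚ_[ℓ])
  (Pol : HeightOneSpectrum (𝓞 K) → ℕ → ℤ[X]) (ρ : GK K →* Matrix ι ι ℚ_[ℓ]),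
  IsHyperKahler X → IsRealization X S χ Pol ρ → IsHodgeTate X ρ →
  NonUnip χ (fun g => blk X.deg 2 (ρ g))

/-- **NVA**: elements of the Galois group such that no trace is an integral multiple of `χ` -/
def S_NVA : Prop := ∀ (K : Type) [Field K] [NumberField K] (ℓ : ℕ) [Fact ℓ.Prime] (I : Type)
  [Fintype I] [DecidableEq I] (n : I → Type) [∀ i, Fintype (n i)] [∀ i, DecidableEq (n i)]
  (S : Finset ℕ) (χ : GK K →* ℚ_[ℓ]) (ρ : ∀ i, GK K →* Matrix (n i) (n i) ℚ_[ℓ])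
  (P : I → HeightOneSpectrum (𝓞 K) → ℤ[X]), Continuous χ → (∀ i, Continuous (ρ i)) →
  (∀ i, 0 < Fintype.card (n i)) →
  (∀ i, ∀ p : ℕ, p.Prime → p ∉ S → ∀ v, Ideal.absNorm v.asIdeal = p →
    (P i v).Monic ∧ (∀ z : ℂ, aeval z (P i v) = 0 → ‖z‖ ^ 2 = (p : ℝ) ^ 2) ∧
    ∀ σ : GK K, IsFrobenius v σ → χ σ⁻¹ = p ∧
      (ρ i σ⁻¹).charpoly = (P i v).map (Int.castRingHom ℚ_[ℓ])) →
  (∀ i, NonUnip χ (ρ i)) → ∀ U : Set (GK K), IsOpen U → U.Nonempty → (∀ i, U ⊆ Near χ (ρ i)) →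
  ∃ g ∈ U, ∀ i, ∀ k ∈ Finset.Icc (-(Fintype.card (n i) : ℤ)) (Fintype.card (n i)),
    (ρ i g).trace ≠ k * χ g

/-- **DEN**: the density of the places which are ordinary in degree two -/
def S_DEN : Prop := ∀ (K : Type) [Field K] [NumberField K] (ℓ : ℕ) [Fact ℓ.Prime] (I : Type)
  [Fintype I] [DecidableEq I] (n : I → Type) [∀ i, Fintype (n i)] [∀ i, DecidableEq (n i)]
  (S : Finset ℕ) (χ : GK K →* ℚ_[ℓ]) (ρ : ∀ i, GK K →* Matrix (n i) (n i) ℚ_[ℓ])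
  (P : I → HeightOneSpectrum (𝓞 K) → ℤ[X]), Continuous χ → (∀ i, Continuous (ρ i)) →
  (∀ i, 0 < Fintype.card (n i)) →
  (∀ i, ∀ p : ℕ, p.Prime → p ∉ S → ∀ v, Ideal.absNorm v.asIdeal = p →
    (P i v).Monic ∧ (∀ z : ℂ, aeval z (P i v) = 0 → ‖z‖ ^ 2 = (p : ℝ) ^ 2) ∧
    ∀ σ : GK K, IsFrobenius v σ → χ σ⁻¹ = p ∧
      (ρ i σ⁻¹).charpoly = (P i v).map (Int.castRingHom ℚ_[ℓ])) →
  (∀ i, NonUnip χ (ρ i)) → ∀ U : Subgroup (GK K), U.Normal → IsOpen (U : Set (GK K)) →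
  (∀ i, (U : Set (GK K)) ⊆ Near χ (ρ i)) →
  Tendsto (dens fun v : HeightOneSpectrum (𝓞 K) => (∃ σ ∈ U, IsFrobenius v σ) ∧
    ∃ p : ℕ, p.Prime ∧ p ∉ S ∧ Ideal.absNorm v.asIdeal = p ∧
      ∀ i, ¬ (p : ℤ) ∣ (P i v).coeff (Fintype.card (n i) - 1)) atTop (𝓝 (1 / (U.index : ℝ)))

/-- **ORF**: density of the ordinary places -/
def S_ORF : Prop := ∀ (K : Type) [Field K] [NumberField K] (ℓ : ℕ) [Fact ℓ.Prime] (I : Type)
  [Fintype I] [DecidableEq I] (ι : I → Type) [∀ i, Fintype (ι i)] [∀ i, DecidableEq (ι i)]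
  (X : ∀ i, Coh (ι i)) (S : Finset ℕ) (χ : GK K →* ℚ_[ℓ])
  (Pol : I → HeightOneSpectrum (𝓞 K) → ℕ → ℤ[X])
  (ρ : ∀ i, GK K →* Matrix (ι i) (ι i) ℚ_[ℓ]), (∀ i, IsHyperKahler (X i)) →
  (∀ i, IsRealization (X i) S χ (Pol i) (ρ i)) → (∀ i, IsHodgeTate (X i) (ρ i)) →
  ∀ U : Subgroup (GK K), U.Normal → IsOpen (U : Set (GK K)) →
  (∀ g ∈ U, ‖χ g - 1‖ ≤ ((ℓ : ℝ) ^ 2)⁻¹ ∧
    ∀ i a b, ‖(blk (X i).deg 2 (ρ i g) - 1) a b‖ ≤ ((ℓ : ℝ) ^ 2)⁻¹) →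
  Tendsto (dens fun v : HeightOneSpectrum (𝓞 K) => (∃ σ ∈ U, IsFrobenius v σ) ∧
    IsOrdinary X S Pol v) atTop (𝓝 (1 / (U.index : ℝ)))

/-! ### Semisimplicity -/

/-- the generalized eigenvectors of `T` are eigenvectors -/
def IsDiag {F n : Type} [Field F] [Fintype n] [DecidableEq n] (T : Matrix n n F) : Prop :=
  ∀ (a : F) (k : ℕ) (x : n → F), ((T - a • (1 : Matrix n n F)) ^ k) *ᵥ x = 0 → T *ᵥ x = a • x

/-- **SSX**: semisimple matrices are diagonalizable over the algebraic closure -/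
def S_SSX : Prop := ∀ (k F : Type) [Field k] [CharZero k] [Field F] [IsAlgClosed F] [Algebra k F]
  (n : Type) [Fintype n] [DecidableEq n] (A : Matrix n n k),
  Module.End.IsSemisimple (Matrix.toLin' A) ↔ IsDiag (A.map (algebraMap k F))

/-- **SPN**: the eigenvectors of the conjugation by a diagonalizable matrix span -/
def S_SPN : Prop := ∀ (F : Type) [Field F] [IsAlgClosed F] (n : Type) [Fintype n] [DecidableEq n]
  (T T' : Matrix n n F), T * T' = 1 → IsDiag T →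
  ∀ x, x ∈ Submodule.span F {y : Matrix n n F | ∃ t : F, T * y * T' = t • y}

/-- **SSM**: semisimplicity in degree two implies semisimplicity in all degrees -/
def S_SSM : Prop := ∀ (ι : Type) [Fintype ι] [DecidableEq ι] (X : Coh ι), IsHyperKahler X →
  ∀ (F : Type) [Field F] [CharZero F] [IsAlgClosed F] (T T' : Matrix ι ι F) (μ : F) (m : ℕ),
  T * T' = 1 → IsGraded X.deg T → 0 < m →
  (blk X.deg 2 T)ᵀ * X.qF F * blk X.deg 2 T = μ • X.qF F →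
  (∀ x, X.IsSkew F x → T * X.δF F x * T' = X.δF F (blk X.deg 2 T * x * blk X.deg 2 T')) →
  (∀ B : Matrix ι ι ℚ, X.Com ℚ B →
    T ^ m * B.map (algebraMap ℚ F) = B.map (algebraMap ℚ F) * T ^ m) →
  IsDiag (blk X.deg 2 T) → IsDiag T

/-- **CMU**: an open subgroup of the Galois group commutes with the commutant -/
def S_CMU : Prop := ∀ (K : Type) [Field K] [NumberField K] (ℓ : ℕ) [Fact ℓ.Prime] (ι : Type)
  [Fintype ι] [DecidableEq ι] (X : Coh ι) (S : Finset ℕ) (χ : GK K →* ℚ_[ℓ])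
  (Pol : HeightOneSpectrum (𝓞 K) → ℕ → ℤ[X]) (ρ : GK K →* Matrix ι ι ℚ_[ℓ]),
  IsHyperKahler X → IsRealization X S χ Pol ρ → NonUnip χ (fun g => blk X.deg 2 (ρ g)) →
  ∃ U : Subgroup (GK K), IsOpen (U : Set (GK K)) ∧
    ∀ g ∈ U, ∀ B : Matrix ι ι ℚ_[ℓ], X.Com ℚ_[ℓ] B → ρ g * B = B * ρ g

/-- **SSF**: semisimplicity of Frobenius elements in all degrees -/
def S_SSF : Prop := ∀ (K : Type) [Field K] [NumberField K] (ℓ : ℕ) [Fact ℓ.Prime] (ι : Type)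
  [Fintype ι] [DecidableEq ι] (X : Coh ι) (S : Finset ℕ) (χ : GK K →* ℚ_[ℓ])
  (Pol : HeightOneSpectrum (𝓞 K) → ℕ → ℤ[X]) (ρ : GK K →* Matrix ι ι ℚ_[ℓ]),
  IsHyperKahler X → IsRealization X S χ Pol ρ → IsHodgeTate X ρ →
  ∀ g : GK K, Module.End.IsSemisimple (Matrix.toLin' (blk X.deg 2 (ρ g))) →
    Module.End.IsSemisimple (Matrix.toLin' (ρ g))

end Pool.Agent.NH56.HO
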