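import Pool.Agent.NH56.HO.Stm
import Pool.Agent.NH56.HY.Laa
import Pool.Agent.NH56.HU.Stm

/-!
# An open subgroup of the Galois group commutes with the commutant
-/

set_option autoImplicit false

namespace Pool.Agent.NH56.HO

open Matrix Polynomial Filter Topology NumberField IsDedekindDomain Pool.Agent.NH56.HY

theorem t_CMU (hORD : S_ORD) (hUNI : S_UNI) (hCOM : S_COM) (hCFT : HU.S_CFT) : S_CMU := by
  intro K _ _ ℓ _ ι _ _ X S χ Pol ρ hX hρ hnu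
  obtain ⟨U, hUo, hU⟩ := near_subgroup χ ρ hρ.continuous.2 hρ.continuous.1
  have hdense : ∀ V : Set (GK K), IsOpen V → V.Nonempty → V ⊆ U → ∃ p : ℕ, p.Prime ∧ p ∉ S ∧
      ∃ v : HeightOneSpectrum (𝓞 K), Ideal.absNorm v.asIdeal = p ∧
      (∃ σ : GK K, IsFrobenius v σ ∧ σ⁻¹ ∈ V) ∧
      ¬ (p : ℤ) ∣ (Pol v 2).coeff (Fintype.card {a // X.deg a = 2} - 1) := by
    intro V hVo hVn hVU
    refine hORD K ℓ {a // X.deg a = 2} S χ (blkHom X.deg 2 ρ hρ.graded) (fun v => Pol v 2)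
      hρ.continuous.2 (continuous_blk X.deg 2 ρ hρ.continuous.1) (by have := hX.betti; omega)
      ?_ hnu V hVo hVn ?_
    · intro p hp hpS v hv
      haveI : Fact p.Prime := ⟨hp⟩
      refine ⟨(hρ.weil p hpS v hv 2).1, (hρ.weil p hpS v hv 2).2, fun σ hσ => ?_⟩
      exact ⟨(hρ.frobenius p hpS v hv σ hσ).1, (hρ.frobenius p hpS v hv σ hσ).2 2⟩
    · intro g hg
      have hg' : g ∈ Near χ ρ := by rw [← hU]; exact hVU hg
      refine ⟨fun i j => ?_, hg'.2⟩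
      have := hg'.1 i.1 j.1
      convert this using 2
      simp only [blkHom, blk, MonoidHom.coe_mk, OneHom.coe_mk, Matrix.sub_apply,
        Matrix.submatrix_apply, Matrix.one_apply, Subtype.ext_iff]
  refine ⟨U, hUo, hCOM K ℓ ι X S χ Pol ρ (hCFT K ℓ) hX hρ U hUo ?_⟩
  intro V hVo hVn hVU
  obtain ⟨p, hp, hpS, v, hv, ⟨σ, hσ, hσV⟩, hord⟩ := hdense V hVo hVn hVU
  haveI : Fact p.Prime := ⟨hp⟩
  refine ⟨σ⁻¹, hσV, ?_⟩
  have h := (hUNI K ℓ ι X S χ Pol ρ hX hρ p hpS v hv σ hσ hord (by rw [← hU]; exact hVU hσV)).1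
  rw [inv_inv]
  exact h

end Pool.Agent.NH56.HO
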