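import Pool.Agent.NH56.HY.Def

/-!
# Ordinary and semisimple Frobenius elements of hyper-Kähler varieties: definitions
-/

set_option autoImplicit false

namespace Pool.Agent.NH56.HO

open Matrix Polynomial Filter Topology NumberField IsDedekindDomain Pool.Agent.NH56.HY

/-- Sen and Faltings: for a place above `ℓ` the extension to `ℂ_ℓ` of the Lie algebra of the image of the
inertia group contains an operator `Θ` with the Hodge-Tate weights as eigenvalues (up to sign); only the
eigenvalue `0`, of multiplicity `h^{0,2} = 1`, in degree two is used. -/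
def IsHodgeTate {K : Type} [Field K] [NumberField K] {ℓ : ℕ} [Fact ℓ.Prime] {ι : Type}
    [Fintype ι] [DecidableEq ι] (X : Coh ι) (ρ : GK K →* Matrix ι ι ℚ_[ℓ]) : Prop :=
  ∃ Q : Ideal (𝓞 (AlgebraicClosure K)), Q.IsMaximal ∧ (ℓ : 𝓞 (AlgebraicClosure K)) ∈ Q ∧
    ∃ Θ ∈ Submodule.span ℂ_[ℓ] ((fun Z : Matrix ι ι ℚ_[ℓ] => Z.map (algebraMap ℚ_[ℓ] ℂ_[ℓ])) ''
      LieImage ρ (inertia Q)),
      X.IsSkew ℂ_[ℓ] (blk X.deg 2 Θ - 1) ∧ (blk X.deg 2 Θ).charpoly.IsRoot 0

/-- the number of places `v` of `K` with norm at most `N` and with the property `P`, divided by the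
number of rational primes up to `N`; the limit is the natural density -/
noncomputable def dens {K : Type} [Field K] [NumberField K] (P : HeightOneSpectrum (𝓞 K) → Prop)
    (N : ℕ) : ℝ :=
  (Nat.card {v : HeightOneSpectrum (𝓞 K) // Ideal.absNorm v.asIdeal ≤ N ∧ P v} : ℝ) /
    (Nat.primeCounting N : ℝ)

/-- `v` is a place of degree one, with residue characteristic not in `S`, and all the varieties `X i` are
ordinary at `v` in all degrees: the Newton polygons are equal to the Hodge polygons -/
def IsOrdinary {K : Type} [Field K] [NumberField K] {I : Type} {ι : I → Type} [∀ i, Fintype (ι i)]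
    [∀ i, DecidableEq (ι i)] (X : ∀ i, Coh (ι i)) (S : Finset ℕ)
    (Pol : I → HeightOneSpectrum (𝓞 K) → ℕ → ℤ[X]) (v : HeightOneSpectrum (𝓞 K)) : Prop :=
  ∃ (p : ℕ) (_ : Fact p.Prime), p ∉ S ∧ Ideal.absNorm v.asIdeal = p ∧
    ∀ i j, newton p (Pol i v j) = (X i).hodge j

end Pool.Agent.NH56.HO
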