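import Mathlib

/-!
# Semisimple matrices
-/

set_option autoImplicit false

namespace Pool.Agent.NH56.HO

/-- the matrix `A` acts semisimply: every stable subspace has a stable complement -/
def Semisimple {n F : Type} [Fintype n] [DecidableEq n] [Field F] (A : Matrix n n F) : Prop :=
  Module.End.IsSemisimple (Matrix.toLin' A)

end Pool.Agent.NH56.HO
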