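import Pool.Agent.NH56.HO.Stm
import Pool.Agent.NH36.Fs.Main
import Pool.Agent.NH56.HY.Dg1
import Pool.Agent.NH56.HY.Ord

/-!
# DEN: the density of the places which are ordinary in degree two
-/

set_option autoImplicit false
set_option linter.unusedSectionVars false

namespace Pool.Agent.NH56.HO

open Matrix Polynomial Filter Topology NumberField IsDedekindDomain Pool.Agent.NH56.HY

namespace Den

open Pool.Agent.NH36.Fs (polyFun entry_mem Conn)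

section rep

variable {Γ F : Type} [Group Γ] [Field F]

section gl

variable {m : Type} [Fintype m] [DecidableEq m]

/-- a representation by matrices as a homomorphism to the general linear group -/
noncomputable def gl (M : Γ →* Matrix m m F) : Γ →* GL (Fin (Fintype.card m)) F :=
  MonoidHom.toHomUnits
    { toFun := fun γ => (M γ).submatrix (Fintype.equivFin m).symm (Fintype.equivFin m).symm
      map_one' := by rw [map_one]; exact submatrix_one_equiv _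
      map_mul' := fun a b => by rw [map_mul, submatrix_mul_equiv] }

theorem gl_apply (M : Γ →* Matrix m m F) (γ : Γ) (a b : Fin (Fintype.card m)) :
    (gl M γ).val a b = M γ ((Fintype.equivFin m).symm a) ((Fintype.equivFin m).symm b) := rfl

theorem gl_mem (M : Γ →* Matrix m m F) (a b : m) : (fun γ => M γ a b) ∈ polyFun (gl M) := by
  have h := entry_mem (gl M) (Fintype.equivFin m a) (Fintype.equivFin m b)
  simp only [gl_apply, Equiv.symm_apply_apply] at h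
  exact h

end gl

variable {I : Type} [Fintype I] [DecidableEq I] {n : I → Type} [∀ i, Fintype (n i)]
  [∀ i, DecidableEq (n i)]

/-- the sum of the contragredient representations -/
def big (χ : Γ →* F) (ρ : ∀ i, Γ →* Matrix (n i) (n i) F) :
    Γ →* Matrix (Unit ⊕ (Σ i, n i)) (Unit ⊕ (Σ i, n i)) F where
  toFun σ := fromBlocks (diagonal fun _ => χ σ⁻¹) 0 0 (blockDiagonal' fun i => (ρ i σ⁻¹)ᵀ)
  map_one' := by
    have h2 : (fun i => (ρ i (1 : Γ)⁻¹)ᵀ) = (1 : ∀ i, Matrix (n i) (n i) F) := by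
      funext i
      rw [inv_one, map_one, transpose_one]
      rfl
    rw [h2, blockDiagonal'_one, inv_one, map_one, diagonal_one, fromBlocks_one]
  map_mul' σ τ := by
    have h2 : (fun i => (ρ i (σ * τ)⁻¹)ᵀ) = fun i => (ρ i σ⁻¹)ᵀ * (ρ i τ⁻¹)ᵀ := by
      funext i
      rw [_root_.mul_inv_rev, map_mul, transpose_mul]
    rw [h2, blockDiagonal'_mul, fromBlocks_multiply, diagonal_mul_diagonal]
    simp [mul_comm]

theorem chi_mem (χ : Γ →* F) (ρ : ∀ i, Γ →* Matrix (n i) (n i) F) :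
    (fun γ => χ γ⁻¹) ∈ polyFun (gl (big χ ρ)) := by
  have h := gl_mem (big χ ρ) (Sum.inl ()) (Sum.inl ())
  have e : (fun γ => big χ ρ γ (Sum.inl ()) (Sum.inl ())) = fun γ => χ γ⁻¹ := by
    funext γ
    show fromBlocks (diagonal fun _ => χ γ⁻¹) 0 0 (blockDiagonal' fun i => (ρ i γ⁻¹)ᵀ)
      (Sum.inl ()) (Sum.inl ()) = _
    rw [fromBlocks_apply₁₁, diagonal_apply_eq]
  rwa [e] at h

theorem trace_mem (χ : Γ →* F) (ρ : ∀ i, Γ →* Matrix (n i) (n i) F) (i : I) :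
    (fun γ => (ρ i γ⁻¹).trace) ∈ polyFun (gl (big χ ρ)) := by
  have h : ∀ a : n i, (fun γ => ρ i γ⁻¹ a a) ∈ polyFun (gl (big χ ρ)) := by
    intro a
    have h := gl_mem (big χ ρ) (Sum.inr ⟨i, a⟩) (Sum.inr ⟨i, a⟩)
    have e : (fun γ => big χ ρ γ (Sum.inr ⟨i, a⟩) (Sum.inr ⟨i, a⟩)) = fun γ => ρ i γ⁻¹ a a := by
      funext γ
      show fromBlocks (diagonal fun _ => χ γ⁻¹) 0 0 (blockDiagonal' fun i => (ρ i γ⁻¹)ᵀ)
        (Sum.inr ⟨i, a⟩) (Sum.inr ⟨i, a⟩) = _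
      rw [fromBlocks_apply₂₂, blockDiagonal'_apply_eq, transpose_apply]
    rwa [e] at h
  have e : (fun γ => (ρ i γ⁻¹).trace) = ∑ a, fun γ => ρ i γ⁻¹ a a := by
    funext γ
    rw [Finset.sum_apply]
    rfl
  rw [e]
  exact Subalgebra.sum_mem _ fun a _ => h a

/-- the product of the relations -/
noncomputable def rel (χ : Γ →* F) (ρ : ∀ i, Γ →* Matrix (n i) (n i) F) (γ : Γ) : F :=
  ∏ i, ∏ k ∈ Finset.Icc (-(Fintype.card (n i) : ℤ)) (Fintype.card (n i)),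
    ((ρ i γ⁻¹).trace - (k : F) * χ γ⁻¹)

theorem rel_mem (χ : Γ →* F) (ρ : ∀ i, Γ →* Matrix (n i) (n i) F) :
    rel χ ρ ∈ polyFun (gl (big χ ρ)) := by
  have e : rel χ ρ = ∏ i, ∏ k ∈ Finset.Icc (-(Fintype.card (n i) : ℤ)) (Fintype.card (n i)),
      ((fun γ => (ρ i γ⁻¹).trace) - (k : F) • fun γ => χ γ⁻¹) := by
    funext γ
    rw [Finset.prod_apply]
    refine Finset.prod_congr rfl fun i _ => ?_
    rw [Finset.prod_apply]
    rfl
  rw [e]
  exact Subalgebra.prod_mem _ fun i _ => Subalgebra.prod_mem _ fun k _ =>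
    Subalgebra.sub_mem _ (trace_mem χ ρ i) (Subalgebra.smul_mem _ (chi_mem χ ρ) _)

theorem rel_ne {χ : Γ →* F} {ρ : ∀ i, Γ →* Matrix (n i) (n i) F} {γ : Γ}
    (h : ∀ i, ∀ k ∈ Finset.Icc (-(Fintype.card (n i) : ℤ)) (Fintype.card (n i)),
      (ρ i γ⁻¹).trace ≠ k * χ γ⁻¹) : rel χ ρ γ ≠ 0 :=
  Finset.prod_ne_zero_iff.2 fun i _ => Finset.prod_ne_zero_iff.2 fun k hk =>
    sub_ne_zero.2 (h i k hk)

theorem rel_zero {χ : Γ →* F} {ρ : ∀ i, Γ →* Matrix (n i) (n i) F} {γ : Γ}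
    (h : ∃ i, ∃ k ∈ Finset.Icc (-(Fintype.card (n i) : ℤ)) (Fintype.card (n i)),
      (ρ i γ⁻¹).trace = k * χ γ⁻¹) : rel χ ρ γ = 0 := by
  obtain ⟨i, k, hk, e⟩ := h
  exact Finset.prod_eq_zero (Finset.mem_univ i) (Finset.prod_eq_zero hk (sub_eq_zero.2 e))

theorem big_cont [TopologicalSpace Γ] [TopologicalSpace F] [IsTopologicalGroup Γ] {χ : Γ →* F}
    {ρ : ∀ i, Γ →* Matrix (n i) (n i) F} (hχ : Continuous χ) (hρ : ∀ i, Continuous (ρ i)) :
    ∀ a b, Continuous fun γ => (gl (big χ ρ) γ).val a b := by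
  have h : Continuous (big χ ρ) := by
    show Continuous fun σ : Γ => fromBlocks (diagonal fun _ : Unit => χ σ⁻¹) 0 0
      (blockDiagonal' fun i => (ρ i σ⁻¹)ᵀ)
    refine Continuous.matrix_fromBlocks ?_ continuous_const continuous_const ?_
    · exact Continuous.matrix_diagonal (continuous_pi fun _ => hχ.comp continuous_inv)
    · exact Continuous.matrix_blockDiagonal' (continuous_pi fun i =>
        ((hρ i).comp continuous_inv).matrix_transpose)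
  intro a b
  exact h.matrix_elem _ _

end rep

/-- the image of the subgroup in the quotient -/
theorem ncard_image {Γ : Type} [Group Γ] (U : Subgroup Γ) :
    ((QuotientGroup.mk : Γ → Γ ⧸ U) '' (U : Set Γ)).ncard = 1 := by
  rw [Set.ncard_eq_one]
  refine ⟨QuotientGroup.mk 1, ?_⟩
  ext q
  rw [Set.mem_singleton_iff]
  constructor
  · rintro ⟨u, hu, rfl⟩
    rw [QuotientGroup.eq]
    exact U.mul_mem (U.inv_mem hu) U.one_mem
  · rintro rfl
    exact ⟨1, U.one_mem, rfl⟩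

theorem trace_conj {Γ F m : Type} [Group Γ] [Field F] [Fintype m] [DecidableEq m]
    (ρ : Γ →* Matrix m m F) (σ τ : Γ) : (ρ (τ * σ * τ⁻¹)⁻¹).trace = (ρ σ⁻¹).trace := by
  have e : (τ * σ * τ⁻¹)⁻¹ = τ * σ⁻¹ * τ⁻¹ := by group
  rw [e, map_mul, map_mul, Matrix.trace_mul_comm, ← Matrix.mul_assoc, ← map_mul, inv_mul_cancel,
    map_one, Matrix.one_mul]

theorem chi_conj {Γ F : Type} [Group Γ] [Field F] (χ : Γ →* F) (σ τ : Γ) :
    χ (τ * σ * τ⁻¹)⁻¹ = χ σ⁻¹ := by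
  have e : (τ * σ * τ⁻¹)⁻¹ = τ * σ⁻¹ * τ⁻¹ := by group
  rw [e, map_mul, map_mul, mul_comm (χ τ), mul_assoc, ← map_mul, mul_inv_cancel, map_one, mul_one]

end Den

open Den in
theorem t_DEN (hNVA : S_NVA) : S_DEN := by
  intro K _ _ ℓ _ I _ _ n _ _ S χ ρ P hχ hρ hn hP hNU U hUn hUo hUN
  classical
  -- the exceptional set
  obtain ⟨A, hA⟩ : ∃ A : Set (GK K), A = {σ : GK K | σ ∈ U ∧
      ∃ i, ∃ k ∈ Finset.Icc (-(Fintype.card (n i) : ℤ)) (Fintype.card (n i)),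
        (ρ i σ⁻¹).trace = k * χ σ⁻¹} := ⟨_, rfl⟩
  have hAc : ∀ σ ∈ A, ∀ τ : GK K, τ * σ * τ⁻¹ ∈ A := by
    intro σ hσ τ
    rw [hA] at hσ ⊢
    obtain ⟨h1, i, k, hk, h2⟩ := hσ
    refine ⟨hUn.conj_mem σ h1 τ, i, k, hk, ?_⟩
    rw [Den.trace_conj, chi_conj, h2]
  -- a connected subgroup
  obtain ⟨Δ₀, hΔn, hΔo, hΔc⟩ := Pool.Agent.NH36.Fs.exists_conn (gl (big χ ρ))
  have hΔ : IsOpen ((Δ₀ ⊓ U : Subgroup (GK K)) : Set (GK K)) := by
    rw [Subgroup.coe_inf]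
    exact hΔo.inter hUo
  have hc : Pool.Agent.NH36.Fs.Conn (gl (big χ ρ)) (Δ₀ ⊓ U) := by
    intro H hH hHo f hf h0 x hx
    exact hΔc H (hH.trans inf_le_left) hHo f hf h0 x hx.1
  have hnull : Tendsto (Pool.Agent.W401.Cheb.dens fun v : HeightOneSpectrum (𝓞 K) =>
      ∃ σ ∈ A, Pool.Agent.W401.Cheb.IsFrob v σ) atTop (𝓝 0) := by
    refine Pool.Agent.NH36.Fs.null_of_fun (gl (big χ ρ)) (big_cont hχ hρ) hΔ hc A hAc ?_
    intro q
    obtain ⟨g, rfl⟩ := QuotientGroup.mk_surjective q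
    by_cases hg : g ∈ U
    · have hV : IsOpen {x : GK K | g⁻¹ * x⁻¹ ∈ (Δ₀ ⊓ U : Subgroup (GK K))} :=
        hΔ.preimage (continuous_const.mul continuous_inv)
      have hVU : ∀ x : GK K, g⁻¹ * x⁻¹ ∈ (Δ₀ ⊓ U : Subgroup (GK K)) → x ∈ U := by
        intro x hx
        have h1 := U.mul_mem hg hx.2
        rw [mul_inv_cancel_left] at h1
        exact U.inv_mem_iff.1 h1
      obtain ⟨x, hx, hx'⟩ := hNVA K ℓ I n S χ ρ P hχ hρ hn hP hNU
        {x : GK K | g⁻¹ * x⁻¹ ∈ (Δ₀ ⊓ U : Subgroup (GK K))} hV ⟨g⁻¹, by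
          show g⁻¹ * g⁻¹⁻¹ ∈ (Δ₀ ⊓ U : Subgroup (GK K))
          rw [inv_inv, inv_mul_cancel]
          exact Subgroup.one_mem _⟩ (fun i x hx => hUN i (hVU x hx))
      refine ⟨x⁻¹, ?_, rel χ ρ, rel_mem χ ρ, rel_ne ?_, ?_⟩
      · exact (QuotientGroup.eq.2 hx).symm
      · intro i k hk
        rw [inv_inv]
        exact hx' i k hk
      · intro y hy _
        rw [hA] at hy
        exact rel_zero hy.2
    · refine ⟨g, rfl, 1, Subalgebra.one_mem _, one_ne_zero, ?_⟩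
      intro x hx hq
      exfalso
      rw [hA] at hx
      have h1 := QuotientGroup.eq.1 hq
      have h2 := U.mul_mem hx.1 h1.2
      rw [mul_inv_cancel_left] at h2
      exact hg h2
  -- Chebotarev
  have key := Pool.Agent.W528.Ord.chebK K U hUo (U : Set (GK K)) (fun σ hσ τ => hUn.conj_mem σ hσ τ)
    (fun σ hσ u hu => U.mul_mem hσ hu)
  rw [ncard_image, Nat.cast_one] at key
  have h3 : Tendsto (Pool.Agent.W401.Cheb.dens fun v : HeightOneSpectrum (𝓞 K) =>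
      (¬ (Ideal.absNorm v.asIdeal).Prime ∨ Ideal.absNorm v.asIdeal ∈ S)) atTop (𝓝 0) := by
    have h1 := (Pool.Agent.W528.Ord.dens_not_prime (K := K)).add
      (Pool.Agent.NH56.HY.Dg1.dens_finite _ (Pool.Agent.NH56.HY.Dg1.finite_norm_mem (K := K) S))
    rw [add_zero] at h1
    exact squeeze_zero (fun N => Pool.Agent.W528.Ord.dens_nonneg _ _)
      (fun N => Pool.Agent.W528.Ord.dens_or _ _ N) h1
  -- the ordinary places
  have hcore : ∀ v : HeightOneSpectrum (𝓞 K), (∃ σ ∈ (U : Set (GK K)), Pool.Agent.W401.Cheb.IsFrob v σ) →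
      (((∃ σ ∈ U, IsFrobenius v σ) ∧ ∃ p : ℕ, p.Prime ∧ p ∉ S ∧ Ideal.absNorm v.asIdeal = p ∧
        ∀ i, ¬ (p : ℤ) ∣ (P i v).coeff (Fintype.card (n i) - 1)) ∨
      (¬ (Ideal.absNorm v.asIdeal).Prime ∨ Ideal.absNorm v.asIdeal ∈ S)) ∨
      ∃ σ ∈ A, Pool.Agent.W401.Cheb.IsFrob v σ := by
    rintro v ⟨σ, hσU, hσ⟩
    by_cases hp : (Ideal.absNorm v.asIdeal).Prime
    swap
    · exact Or.inl (Or.inr (Or.inl hp))
    by_cases hS : Ideal.absNorm v.asIdeal ∈ S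
    · exact Or.inl (Or.inr (Or.inr hS))
    by_cases hd : ∀ i, ¬ ((Ideal.absNorm v.asIdeal : ℕ) : ℤ) ∣ (P i v).coeff (Fintype.card (n i) - 1)
    · exact Or.inl (Or.inl ⟨⟨σ, hσU, hσ⟩, _, hp, hS, rfl, hd⟩)
    · push Not at hd
      obtain ⟨i, hi⟩ := hd
      refine Or.inr ⟨σ, ?_, hσ⟩
      obtain ⟨hm, hw, hfr⟩ := hP i _ hp hS v rfl
      obtain ⟨hχσ, hcp⟩ := hfr σ hσ
      have hdeg : (P i v).natDegree = Fintype.card (n i) := by
        rw [← hm.natDegree_map (Int.castRingHom ℚ_[ℓ]), ← hcp, Matrix.charpoly_natDegree_eq_dim]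
      obtain ⟨k, hk, hk'⟩ := ord_key hp (hn i) hm hdeg hw hi
      have hne : Nonempty (n i) := Fintype.card_pos_iff.1 (hn i)
      rw [hA]
      refine ⟨hσU, i, k, hk, ?_⟩
      rw [Matrix.trace_eq_neg_charpoly_coeff, hcp, coeff_map, hk', hχσ]
      simp
  have hup : ∀ N, dens (fun v : HeightOneSpectrum (𝓞 K) => (∃ σ ∈ U, IsFrobenius v σ) ∧
      ∃ p : ℕ, p.Prime ∧ p ∉ S ∧ Ideal.absNorm v.asIdeal = p ∧
        ∀ i, ¬ (p : ℤ) ∣ (P i v).coeff (Fintype.card (n i) - 1)) N ≤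
      Pool.Agent.W401.Cheb.dens (fun v : HeightOneSpectrum (𝓞 K) =>
        ∃ σ ∈ (U : Set (GK K)), Pool.Agent.W401.Cheb.IsFrob v σ) N := fun N =>
    Pool.Agent.W528.Ord.dens_mono (fun v hv => hv.1) N
  have hlo : ∀ N, Pool.Agent.W401.Cheb.dens (fun v : HeightOneSpectrum (𝓞 K) =>
        ∃ σ ∈ (U : Set (GK K)), Pool.Agent.W401.Cheb.IsFrob v σ) N -
      Pool.Agent.W401.Cheb.dens (fun v : HeightOneSpectrum (𝓞 K) =>
        (¬ (Ideal.absNorm v.asIdeal).Prime ∨ Ideal.absNorm v.asIdeal ∈ S)) N -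
      Pool.Agent.W401.Cheb.dens (fun v : HeightOneSpectrum (𝓞 K) =>
        ∃ σ ∈ A, Pool.Agent.W401.Cheb.IsFrob v σ) N ≤
      dens (fun v : HeightOneSpectrum (𝓞 K) => (∃ σ ∈ U, IsFrobenius v σ) ∧
      ∃ p : ℕ, p.Prime ∧ p ∉ S ∧ Ideal.absNorm v.asIdeal = p ∧
        ∀ i, ¬ (p : ℤ) ∣ (P i v).coeff (Fintype.card (n i) - 1)) N := by
    intro N
    have h1 := Pool.Agent.W528.Ord.dens_mono hcore N
    have h2 := Pool.Agent.W528.Ord.dens_or (fun v : HeightOneSpectrum (𝓞 K) =>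
      ((∃ σ ∈ U, IsFrobenius v σ) ∧ ∃ p : ℕ, p.Prime ∧ p ∉ S ∧ Ideal.absNorm v.asIdeal = p ∧
        ∀ i, ¬ (p : ℤ) ∣ (P i v).coeff (Fintype.card (n i) - 1)) ∨
      (¬ (Ideal.absNorm v.asIdeal).Prime ∨ Ideal.absNorm v.asIdeal ∈ S))
      (fun v => ∃ σ ∈ A, Pool.Agent.W401.Cheb.IsFrob v σ) N
    have h4 := Pool.Agent.W528.Ord.dens_or (fun v : HeightOneSpectrum (𝓞 K) =>
      (∃ σ ∈ U, IsFrobenius v σ) ∧ ∃ p : ℕ, p.Prime ∧ p ∉ S ∧ Ideal.absNorm v.asIdeal = p ∧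
        ∀ i, ¬ (p : ℤ) ∣ (P i v).coeff (Fintype.card (n i) - 1))
      (fun v => ¬ (Ideal.absNorm v.asIdeal).Prime ∨ Ideal.absNorm v.asIdeal ∈ S) N
    have h5 : Pool.Agent.W401.Cheb.dens (fun v : HeightOneSpectrum (𝓞 K) =>
      (∃ σ ∈ U, IsFrobenius v σ) ∧ ∃ p : ℕ, p.Prime ∧ p ∉ S ∧ Ideal.absNorm v.asIdeal = p ∧
        ∀ i, ¬ (p : ℤ) ∣ (P i v).coeff (Fintype.card (n i) - 1)) N =
      dens (fun v : HeightOneSpectrum (𝓞 K) => (∃ σ ∈ U, IsFrobenius v σ) ∧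
      ∃ p : ℕ, p.Prime ∧ p ∉ S ∧ Ideal.absNorm v.asIdeal = p ∧
        ∀ i, ¬ (p : ℤ) ∣ (P i v).coeff (Fintype.card (n i) - 1)) N := rfl
    linarith
  have hlim := (key.sub h3).sub hnull
  rw [sub_zero, sub_zero] at hlim
  exact tendsto_of_tendsto_of_tendsto_of_le_of_le hlim key hlo hup

end Pool.Agent.NH56.HO
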