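import Pool.Agent.NH56.HO.Stm
import Pool.Agent.NH56.HY.Maj

/-!
# The equality case of the convexity lemma (project HO, MEQ)
-/

set_option autoImplicit false

namespace Pool.Agent.NH56.HO

open MeasureTheory Pool.Agent.NH56.HY Pool.Agent.NH56.HY.MajAux

namespace MeqAux

lemma exmin {N : Multiset ℝ} (h : N ≠ 0) : ∃ a ∈ N, ∀ x ∈ N, a ≤ x := by
  classical
  have hne : N.toFinset.Nonempty := by
    obtain ⟨a, ha⟩ := Multiset.exists_mem_of_ne_zero h
    exact ⟨a, Multiset.mem_toFinset.2 ha⟩
  obtain ⟨a, ha, hmin⟩ := N.toFinset.exists_min_image id hne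
  exact ⟨a, Multiset.mem_toFinset.1 ha, fun x hx => hmin x (Multiset.mem_toFinset.2 hx)⟩

lemma low {N H : Multiset ℝ} {a b : ℝ} (ha : a ∈ N) (hb : ∀ x ∈ H, b ≤ x)
    (hf : ∀ c : ℝ, (N.map fun x => max (c - x) 0).sum ≤ (H.map fun x => max (c - x) 0).sum) :
    b ≤ a := by
  by_contra hab
  push Not at hab
  have h1 : (H.map fun x => max (b - x) 0).sum = 0 := by
    apply Multiset.sum_eq_zero
    intro y hy
    rw [Multiset.mem_map] at hy
    obtain ⟨x, hx, rfl⟩ := hy
    have := hb x hx
    apply max_eq_right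
    linarith
  have h2 : max (b - a) 0 ≤ (N.map fun x => max (b - x) 0).sum := by
    apply Multiset.single_le_sum
    · intro y hy
      rw [Multiset.mem_map] at hy
      obtain ⟨z, -, rfl⟩ := hy
      exact le_max_right _ _
    · exact Multiset.mem_map_of_mem (fun x => max (b - x) 0) ha
  have h3 := hf b
  have h4 : b - a ≤ max (b - a) 0 := le_max_left _ _
  linarith

lemma inj : ∀ (n : ℕ) (N H : Multiset ℝ), N.card = n → H.card = n →
    (∀ c : ℝ, (N.map fun x => max (c - x) 0).sum = (H.map fun x => max (c - x) 0).sum) →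
    N = H := by
  intro n
  induction n with
  | zero =>
    intro N H hN hH _
    rw [Multiset.card_eq_zero.1 hN, Multiset.card_eq_zero.1 hH]
  | succ n ih =>
    intro N H hN hH hf
    have hN0 : N ≠ 0 := by
      rintro rfl
      simp at hN
    have hH0 : H ≠ 0 := by
      rintro rfl
      simp at hH
    obtain ⟨a, ha, hamin⟩ := exmin hN0
    obtain ⟨b, hb, hbmin⟩ := exmin hH0
    have h1 := low ha hbmin fun c => (hf c).le
    have h2 := low hb hamin fun c => (hf c).ge
    obtain rfl : a = b := le_antisymm h2 h1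
    obtain ⟨N', rfl⟩ := Multiset.exists_cons_of_mem ha
    obtain ⟨H', rfl⟩ := Multiset.exists_cons_of_mem hb
    rw [Multiset.card_cons] at hN hH
    rw [ih N' H' (by omega) (by omega) fun c => by
      have := hf c
      rw [Multiset.map_cons, Multiset.map_cons, Multiset.sum_cons, Multiset.sum_cons] at this
      linarith]

lemma eqall {N H : Multiset ℝ} (h : LiesAbove N H)
    (hsq : (N.map fun x => x ^ 2).sum = (H.map fun x => x ^ 2).sum) (c : ℝ) :
    (N.map fun x => max (c - x) 0).sum = (H.map fun x => max (c - x) 0).sum := by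
  have hN0 : 0 ≤ (N.map fun x => |x|).sum := by
    apply Multiset.sum_nonneg
    intro y hy
    rw [Multiset.mem_map] at hy
    obtain ⟨z, -, rfl⟩ := hy
    exact abs_nonneg z
  have hH0 : 0 ≤ (H.map fun x => |x|).sum := by
    apply Multiset.sum_nonneg
    intro y hy
    rw [Multiset.mem_map] at hy
    obtain ⟨z, -, rfl⟩ := hy
    exact abs_nonneg z
  obtain ⟨R, hR⟩ : ∃ R : ℝ, R = (N.map fun x => |x|).sum + (H.map fun x => |x|).sum + |c| + 1 :=
    ⟨_, rfl⟩
  have hc0 := abs_nonneg c
  have hN : ∀ x ∈ N, -R ≤ x ∧ x ≤ R := fun x hx => abs_le.1 ((bd N x hx).trans (by linarith))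
  have hH : ∀ x ∈ H, -R ≤ x ∧ x ≤ R := fun x hx => abs_le.1 ((bd H x hx).trans (by linarith))
  have hI : ∫ t in (-R)..R, ((H.map fun x => max (t - x) 0).sum -
      (N.map fun x => max (t - x) 0).sum) = 0 := by
    rw [intervalIntegral.integral_sub ((cont H).intervalIntegrable _ _)
      ((cont N).intervalIntegrable _ _), int2 N hN, int2 H hH]
    have e1 := sq_eq R N
    have e2 := sq_eq R H
    rw [h.1, h.2.1] at e1
    linarith
  by_contra hne
  have hlt : (N.map fun x => max (c - x) 0).sum < (H.map fun x => max (c - x) 0).sum :=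
    lt_of_le_of_ne (tr c h) hne
  have hpos : 0 < ∫ t in (-R)..R, ((H.map fun x => max (t - x) 0).sum -
      (N.map fun x => max (t - x) 0).sum) := by
    have hcR := abs_le.1 (by linarith : |c| ≤ R)
    refine intervalIntegral.integral_pos (by linarith) ((cont H).sub (cont N)).continuousOn
      (fun t _ => sub_nonneg.2 (tr t h)) ⟨c, ⟨hcR.1, hcR.2⟩, sub_pos.2 hlt⟩
  rw [hI] at hpos
  exact lt_irrefl _ hpos

end MeqAux

theorem t_MEQ : S_MEQ := fun N H h hsq =>
  MeqAux.inj _ N H h.1 rfl (MeqAux.eqall h hsq)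

end Pool.Agent.NH56.HO
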