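import Pool.Agent.NH56.HO.Stm
import Pool.Agent.NH56.HY.Nsc

/-!
# The representation in degree two is not unipotent up to scalars, by the theorem of Sen
-/

set_option autoImplicit false
set_option linter.unusedSectionVars false

namespace Pool.Agent.NH56.HO

open Matrix Filter Topology NumberField IsDedekindDomain Pool.Agent.NH56.HY

namespace NusP

open Pool.Agent.NH56.HY.NscP

section mat

variable {κ : Type} [Fintype κ] [DecidableEq κ]

theorem sc_map {F E : Type} [Field F] [Field E] (f : F →+* E) (x : Matrix κ κ F) :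
    sc (x.map f) = (sc x).map f := by
  unfold sc
  have h3 : (x.map f).trace = f x.trace := (AddMonoidHom.map_trace f.toAddMonoidHom x).symm
  ext i j
  rw [h3, Matrix.sub_apply, Matrix.smul_apply, Matrix.map_apply, Matrix.map_apply,
    Matrix.sub_apply, Matrix.smul_apply, map_sub, smul_eq_mul, smul_eq_mul, map_mul, map_div₀,
    map_natCast]
  congr 2
  rw [Matrix.one_apply, Matrix.one_apply]
  split_ifs
  · rw [map_one]
  · rw [map_zero]

/-- polynomial identities extend from natural to arbitrary coefficients -/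
theorem poly_ext {F E : Type} [Field F] [CharZero F] [Field E] (f : F →+* E) {r n : ℕ}
    (z : Fin r → Matrix κ κ F) (h : ∀ c : Fin r → ℕ, (∑ k, (c k : F) • z k) ^ n = 0)
    (c : Fin r → E) : (∑ k, c k • (z k).map f) ^ n = 0 := by
  obtain ⟨P, hP0⟩ : ∃ P : Matrix κ κ (MvPolynomial (Fin r) F),
    P = ∑ k, (MvPolynomial.X k : MvPolynomial (Fin r) F) • (z k).map MvPolynomial.C := ⟨_, rfl⟩
  have hev : ∀ (F' : Type) [Field F'] (f : F →+* F') (c : Fin r → F'),
      P.map (MvPolynomial.eval₂Hom f c) = ∑ k, c k • (z k).map f := by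
    intro F' _ f c
    rw [hP0]
    ext i j
    rw [Matrix.map_apply, Matrix.sum_apply, Matrix.sum_apply, map_sum]
    refine Finset.sum_congr rfl fun k _ => ?_
    rw [Matrix.smul_apply, Matrix.smul_apply, Matrix.map_apply, Matrix.map_apply, smul_eq_mul,
      smul_eq_mul, map_mul]
    congr 1
    · exact MvPolynomial.eval₂_X _ _ _
    · exact MvPolynomial.eval₂_C _ _ _
  have hpw : ∀ (F' : Type) [Field F'] (f : F →+* F') (c : Fin r → F'),
      (P ^ n).map (MvPolynomial.eval₂Hom f c) = (P.map (MvPolynomial.eval₂Hom f c)) ^ n :=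
    fun F' _ f c => map_pow (MvPolynomial.eval₂Hom f c).mapMatrix P n
  have hinf : (Set.range (Nat.cast : ℕ → F)).Infinite :=
    Set.infinite_range_of_injective Nat.cast_injective
  have hP : P ^ n = 0 := by
    ext1 i j
    rw [Matrix.zero_apply]
    refine MvPolynomial.funext_set (fun _ : Fin r => Set.range (Nat.cast : ℕ → F))
      (fun _ => hinf) (fun c hc => ?_)
    rw [map_zero]
    choose c' hc' using fun k => hc k (Set.mem_univ k)
    have h3 : (P ^ n).map (MvPolynomial.eval₂Hom (RingHom.id F) c) = 0 := by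
      rw [hpw, hev]
      have h4 := h c'
      refine Eq.trans ?_ h4
      congr 1
      refine Finset.sum_congr rfl fun k _ => ?_
      rw [hc' k]
      rfl
    exact congrFun (congrFun h3 i) j
  rw [← hev, ← hpw, hP]
  exact Matrix.map_zero _ (map_zero _)

/-- the trace of a skew matrix -/
theorem skew_trace {F : Type} [Field F] [CharZero F] {q x : Matrix κ κ F} (hq : IsUnit q.det)
    (h : xᵀ * q + q * x = 0) : x.trace = 0 := by
  have h1 : q⁻¹ * (xᵀ * q) + x = 0 := by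
    have h2 := congrArg (fun y => q⁻¹ * y) h
    simp only [mul_add, mul_zero] at h2
    rwa [← mul_assoc q⁻¹ q x, Matrix.nonsing_inv_mul _ hq, one_mul] at h2
  have h3 := congrArg Matrix.trace h1
  rw [Matrix.trace_add, Matrix.trace_zero, Matrix.trace_mul_comm, mul_assoc,
    Matrix.mul_nonsing_inv _ hq, mul_one, Matrix.trace_transpose] at h3
  have h4 : (2 : F) * x.trace = 0 := by rw [two_mul]; exact h3
  exact (mul_eq_zero.1 h4).resolve_left two_ne_zero

end mat

section lie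

variable {ℓ : ℕ} [hl : Fact ℓ.Prime] {Γ κ : Type} [Group Γ] [Fintype κ] [DecidableEq κ]

theorem lie_zero (ρ : Γ →* Matrix κ κ ℚ_[ℓ]) : (0 : Matrix κ κ ℚ_[ℓ]) ∈ LieImage ρ Set.univ := by
  refine ⟨fun _ => 1, fun _ => Set.mem_univ _, ?_⟩
  have : (fun k : ℕ => ((ℓ : ℚ_[ℓ]) ^ k)⁻¹ • (ρ 1 - 1)) = fun _ => 0 := by
    funext k
    rw [map_one, sub_self, smul_zero]
  rw [this]
  exact tendsto_const_nhds

theorem lie_add (ρ : Γ →* Matrix κ κ ℚ_[ℓ]) {Y Z : Matrix κ κ ℚ_[ℓ]}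
    (hY : Y ∈ LieImage ρ Set.univ) (hZ : Z ∈ LieImage ρ Set.univ) :
    Y + Z ∈ LieImage ρ Set.univ := by
  obtain ⟨σ, -, hσ⟩ := hY
  obtain ⟨τ, -, hτ⟩ := hZ
  refine ⟨fun k => σ k * τ k, fun _ => Set.mem_univ _, ?_⟩
  have h1 := (hσ.mul (lim_one hτ)).add hτ
  rw [mul_one] at h1
  refine h1.congr fun k => ?_
  rw [smul_mul_assoc, ← smul_add, map_mul, sub_mul, one_mul]
  congr 1
  abel

theorem lie_nsmul (ρ : Γ →* Matrix κ κ ℚ_[ℓ]) {Y : Matrix κ κ ℚ_[ℓ]}
    (hY : Y ∈ LieImage ρ Set.univ) (m : ℕ) : (m : ℚ_[ℓ]) • Y ∈ LieImage ρ Set.univ := by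
  induction m with
  | zero =>
    rw [Nat.cast_zero, zero_smul]
    exact lie_zero ρ
  | succ m ih =>
    rw [Nat.cast_succ, add_smul, one_smul]
    exact lie_add ρ ih hY

theorem lie_sum (ρ : Γ →* Matrix κ κ ℚ_[ℓ]) {r : ℕ} (Y : Fin r → Matrix κ κ ℚ_[ℓ])
    (hY : ∀ k, Y k ∈ LieImage ρ Set.univ) (c : Fin r → ℕ) :
    ∑ k, (c k : ℚ_[ℓ]) • Y k ∈ LieImage ρ Set.univ := by
  have h : ∀ s : Finset (Fin r), ∑ k ∈ s, (c k : ℚ_[ℓ]) • Y k ∈ LieImage ρ Set.univ := by
    intro s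
    induction s using Finset.induction_on with
    | empty =>
      rw [Finset.sum_empty]
      exact lie_zero ρ
    | insert a s ha ih =>
      rw [Finset.sum_insert ha]
      exact lie_add ρ (lie_nsmul ρ (hY a) _) ih
  exact h Finset.univ

end lie

end NusP

open Pool.Agent.NH56.HY.NscP NusP in
theorem t_NUS : S_NUS := by
  intro K _ _ ℓ hl ι _ _ X S χ Pol ρ hX hρ hHT W hW
  by_contra hcon'
  have hcon : ∀ g ∈ W, IsNilpotent (blk X.deg 2 (ρ g) -
      χ g • (1 : Matrix {a // X.deg a = 2} {a // X.deg a = 2} ℚ_[ℓ])) := by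
    intro g hg
    by_contra h
    exact hcon' ⟨g, hg, h⟩
  obtain ⟨M, hM0, hM⟩ : ∃ M : ℕ, M ≠ 0 ∧ ∀ g : GK K, g ^ M ∈ W := by
    have : Finite (GK K ⧸ W) := W.quotient_finite_of_isOpen hW
    have hi : W.index ≠ 0 := Subgroup.index_ne_zero_of_finite
    exact ⟨W.index.factorial, Nat.factorial_ne_zero _, fun g =>
      Subgroup.pow_mem_of_index_ne_zero_of_dvd hi g fun m h1 h2 => Nat.dvd_factorial h1 h2⟩
  have hb : 0 < Fintype.card {a // X.deg a = 2} := by have := hX.betti; omega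
  -- the elements of the Lie algebra
  have key : ∀ Z ∈ LieImage ρ Set.univ,
      (sc (blk X.deg 2 Z)) ^ Fintype.card {a // X.deg a = 2} = 0 := by
    rintro Z ⟨σ, -, hσ⟩
    have h2 : Tendsto (fun k : ℕ => ((ℓ : ℚ_[ℓ]) ^ k)⁻¹ • (blk X.deg 2 (ρ (σ k)) - 1)) atTop
        (𝓝 (blk X.deg 2 Z)) := by
      have hc : Continuous (fun M : Matrix ι ι ℚ_[ℓ] => blk X.deg 2 M) :=
        continuous_id.matrix_submatrix _ _
      have h3 := (hc.tendsto _).comp hσ
      refine h3.congr fun k => ?_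
      have e : blk X.deg 2 (1 : Matrix ι ι ℚ_[ℓ]) = 1 := blk_one
      rw [← e]
      rfl
    have h4 := lim_pow h2 M
    have h5 := lim_nil hb h4 (fun k => χ ((σ k) ^ M)) (fun k => by
      rw [← blk_pow ρ hρ.graded]
      exact hcon _ (hM _))
    rw [sc_smul, smul_pow] at h5
    exact (smul_eq_zero.1 h5).resolve_left (pow_ne_zero _ (by exact_mod_cast hM0))
  obtain ⟨Q, -, -, Θ, hΘ, hsk, hroot⟩ := hHT
  obtain ⟨r, c, g, hg⟩ := Submodule.mem_span_set'.1 hΘ
  choose Z hZ hZg using fun k => (g k).2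
  have hZu : ∀ k, Z k ∈ LieImage ρ Set.univ := fun k => by
    obtain ⟨σ, -, h⟩ := hZ k
    exact ⟨σ, fun _ => Set.mem_univ _, h⟩
  have h6 := NusP.poly_ext (algebraMap ℚ_[ℓ] ℂ_[ℓ]) (n := Fintype.card {a // X.deg a = 2})
    (fun k => sc (blk X.deg 2 (Z k))) (by
      intro c'
      have h1 : ∑ k, (c' k : ℚ_[ℓ]) • sc (blk X.deg 2 (Z k)) =
          sc (blk X.deg 2 (∑ k, (c' k : ℚ_[ℓ]) • Z k)) := by
        have h2 : blk X.deg 2 (∑ k, (c' k : ℚ_[ℓ]) • Z k) =
            ∑ k, (c' k : ℚ_[ℓ]) • blk X.deg 2 (Z k) := by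
          ext a b
          rw [Matrix.sum_apply]
          show (∑ k, (c' k : ℚ_[ℓ]) • Z k) a b = _
          rw [Matrix.sum_apply]
          rfl
        rw [h2, sc_sum]
        refine Finset.sum_congr rfl fun k _ => ?_
        rw [sc_smul]
      rw [h1]
      exact key _ (lie_sum ρ Z hZu c')) c
  have h7 : sc (blk X.deg 2 Θ) ^ Fintype.card {a // X.deg a = 2} = 0 := by
    have h8 : blk X.deg 2 Θ = ∑ k, c k • (blk X.deg 2 (Z k)).map (algebraMap ℚ_[ℓ] ℂ_[ℓ]) := by
      rw [← hg]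
      ext a b
      rw [Matrix.sum_apply]
      show (∑ k, c k • (g k : Matrix ι ι ℂ_[ℓ])) a b = _
      rw [Matrix.sum_apply]
      refine Finset.sum_congr rfl fun k _ => ?_
      rw [← hZg]
      rfl
    rw [h8, sc_sum]
    refine Eq.trans ?_ h6
    congr 1
    refine Finset.sum_congr rfl fun k _ => ?_
    rw [sc_smul, NusP.sc_map]
  have hqdet : IsUnit (X.qF ℂ_[ℓ]).det := by
    have h1 : (X.qF ℂ_[ℓ]).det = algebraMap ℚ ℂ_[ℓ] X.q.det :=
      (RingHom.map_det (algebraMap ℚ ℂ_[ℓ]) X.q).symm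
    rw [h1, isUnit_iff_ne_zero]
    exact (map_ne_zero _).2 hX.nondeg
  have htr : (blk X.deg 2 Θ - 1).trace = 0 := skew_trace hqdet hsk
  have hscΘ : sc (blk X.deg 2 Θ) = blk X.deg 2 Θ - 1 := by
    rw [Matrix.trace_sub, Matrix.trace_one, sub_eq_zero] at htr
    unfold sc
    have hb' : (Fintype.card {a // X.deg a = 2} : ℂ_[ℓ]) ≠ 0 := by exact_mod_cast hb.ne'
    rw [htr, div_self hb', one_smul]
  rw [hscΘ] at h7
  have hdet : (blk X.deg 2 Θ).det = 0 := by
    have h1 : (blk X.deg 2 Θ).charpoly.eval 0 = 0 := hroot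
    rw [Matrix.eval_charpoly, map_zero, zero_sub, Matrix.det_neg] at h1
    exact (mul_eq_zero.1 h1).resolve_left (pow_ne_zero _ (neg_ne_zero.2 one_ne_zero))
  obtain ⟨w, hw0, hw⟩ := Matrix.exists_mulVec_eq_zero_iff.2 hdet
  have h9 : ∀ n : ℕ, ((blk X.deg 2 Θ - 1) ^ n) *ᵥ w = (-1 : ℂ_[ℓ]) ^ n • w := by
    intro n
    induction n with
    | zero => rw [pow_zero, pow_zero, Matrix.one_mulVec, one_smul]
    | succ n ih =>
      rw [pow_succ, ← Matrix.mulVec_mulVec, Matrix.sub_mulVec, hw, Matrix.one_mulVec, zero_sub,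
        Matrix.mulVec_neg, ih, pow_succ, mul_neg_one, neg_smul]
  have h10 := h9 (Fintype.card {a // X.deg a = 2})
  rw [h7, Matrix.zero_mulVec] at h10
  exact hw0 ((smul_eq_zero.1 h10.symm).resolve_left
    (pow_ne_zero _ (neg_ne_zero.2 one_ne_zero)))

end Pool.Agent.NH56.HO
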