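import Pool.Agent.NH56.HO.Stm

/-!
# Galois elements with no trace relation
-/

set_option autoImplicit false

namespace Pool.Agent.NH56.HO

open Matrix Polynomial Filter Topology NumberField IsDedekindDomain Pool.Agent.NH56.HY

theorem t_NVA : S_ORD → S_NVA := by
  intro hord K _ _ ℓ _ I _ _ n _ _ S χ ρ P hχ hρ hn hP hnu U hU hUne hnear
  have claim : ∀ i, ∀ V : Set (GK K), IsOpen V → V.Nonempty → V ⊆ U →
      ∃ g ∈ V, ∀ k ∈ Finset.Icc (-(Fintype.card (n i) : ℤ)) (Fintype.card (n i)),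
        (ρ i g).trace ≠ k * χ g := by
    intro i V hV hVne hVU
    obtain ⟨p, hp, hpS, v, hv, ⟨σ, hσ, hσV⟩, hdvd⟩ := hord K ℓ (n i) S χ (ρ i) (P i) hχ (hρ i)
      (hn i) (hP i) (hnu i) V hV hVne (hVU.trans (hnear i))
    refine ⟨σ⁻¹, hσV, fun k _ h => ?_⟩
    obtain ⟨hm, hz, hfr⟩ := hP i p hp hpS v hv
    obtain ⟨h1, h2⟩ := hfr σ hσ
    have : Nonempty (n i) := Fintype.card_pos_iff.1 (hn i)
    have h3 := Matrix.trace_eq_neg_charpoly_coeff (ρ i σ⁻¹)
    rw [h1] at h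
    rw [h2, coeff_map, h] at h3
    apply hdvd
    refine ⟨-k, ?_⟩
    have h4 : (((P i v).coeff (Fintype.card (n i) - 1) : ℤ) : ℚ_[ℓ]) =
        (((p : ℤ) * (-k) : ℤ) : ℚ_[ℓ]) := by
      have h5 : (((P i v).coeff (Fintype.card (n i) - 1) : ℤ) : ℚ_[ℓ]) = -((k : ℚ_[ℓ]) * p) := by
        rw [h3]
        simp
      rw [h5]
      push_cast
      ring
    exact_mod_cast h4
  have hopen : ∀ i, IsOpen {g : GK K |
      ∀ k ∈ Finset.Icc (-(Fintype.card (n i) : ℤ)) (Fintype.card (n i)),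
        (ρ i g).trace ≠ k * χ g} := by
    intro i
    have h1 : {g : GK K | ∀ k ∈ Finset.Icc (-(Fintype.card (n i) : ℤ)) (Fintype.card (n i)),
        (ρ i g).trace ≠ k * χ g} =
        ⋂ k ∈ Finset.Icc (-(Fintype.card (n i) : ℤ)) (Fintype.card (n i)),
          {g : GK K | (ρ i g).trace ≠ k * χ g} := by
      ext g
      simp only [Set.mem_ofPred_eq, Set.mem_iInter]
    rw [h1]
    refine isOpen_biInter_finset fun k _ => isOpen_ne_fun ?_ (continuous_const.mul hχ)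
    exact (hρ i).matrix_trace
  have key : ∀ s : Finset I, ∀ V : Set (GK K), IsOpen V → V.Nonempty → V ⊆ U →
      ∃ g ∈ V, ∀ i ∈ s, ∀ k ∈ Finset.Icc (-(Fintype.card (n i) : ℤ)) (Fintype.card (n i)),
        (ρ i g).trace ≠ k * χ g := by
    intro s
    induction s using Finset.induction_on with
    | empty =>
      intro V _ ⟨g, hg⟩ _
      exact ⟨g, hg, by simp⟩
    | insert i s _ ih =>
      intro V hV hVne hVU
      obtain ⟨g, hg, hg'⟩ := ih (V ∩ {g : GK K |
        ∀ k ∈ Finset.Icc (-(Fintype.card (n i) : ℤ)) (Fintype.card (n i)),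
          (ρ i g).trace ≠ k * χ g}) (hV.inter (hopen i)) (by
          obtain ⟨g, hg, hg'⟩ := claim i V hV hVne hVU
          exact ⟨g, hg, hg'⟩) (Set.inter_subset_left.trans hVU)
      refine ⟨g, hg.1, fun j hj => ?_⟩
      rcases Finset.mem_insert.1 hj with rfl | hj
      · exact hg.2
      · exact hg' j hj
  obtain ⟨g, hg, hg'⟩ := key Finset.univ U hU hUne subset_rfl
  exact ⟨g, hg, fun i => hg' i (Finset.mem_univ i)⟩

end Pool.Agent.NH56.HO
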