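import Pool.Agent.NH56.HO.Stm
import Pool.Agent.NH56.HY.Phi
import Pool.Agent.NH56.HY.Eig
import Pool.Agent.W401.Cheb.Frob

/-!
# A place which is ordinary in degree two is ordinary in all degrees
-/

set_option autoImplicit false

namespace Pool.Agent.NH56.HO

open Matrix Polynomial Filter Topology NumberField IsDedekindDomain Pool.Agent.NH56.HY

open Pool.Agent.NH56.HY.Phi in
theorem t_ONE : S_FUN → S_ARI → S_NWT → S_TRN → S_SSE → S_MEQ → S_ONE := by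
  intro hFUN hARI hNWT hTRN hSSE hMEQ K _ _ ℓ _ ι _ _ X S χ Pol ρ hX hR p _ hpS v hv hord j₀
  obtain ⟨σ, hσ⟩ : ∃ σ, IsFrobenius v σ := (Pool.Agent.W401.Frob.main K).1 v
  have halg : Algebra.IsAlgebraic ℚ (AlgebraicClosure ℚ) := by
    have h := AlgebraicClosure.isAlgebraic ℚ
    convert h
    · rfl
    · exact Subsingleton.elim _ _
  let π : AlgebraicClosure ℚ →+* PadicAlgCl p :=
    (IsAlgClosed.lift : AlgebraicClosure ℚ →ₐ[ℚ] PadicAlgCl p).toRingHom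
  let s : AlgebraicClosure ℚ →+* ℂ :=
    (IsAlgClosed.lift : AlgebraicClosure ℚ →ₐ[ℚ] ℂ).toRingHom
  obtain ⟨c₀⟩ := Eig.exists_emb ℓ
  obtain ⟨c, hc⟩ : ∃ c : ℚ_[ℓ] →+* ℂ, c = c₀.comp (algebraMap ℚ_[ℓ] (PadicAlgCl ℓ)) := ⟨_, rfl⟩
  obtain ⟨T, hT⟩ : ∃ T, T = (ρ σ⁻¹).map c := ⟨_, rfl⟩
  obtain ⟨φ, hφ⟩ : ∃ φ, φ = lg s (fun a => -Real.logb p ‖π a‖) := ⟨_, rfl⟩
  obtain ⟨hTT', hgr, hsim, heq, hchar, hroots⟩ :=
    hTRN K ℓ ι X S χ Pol ρ hX hR p hpS v hv σ hσ c s T ((ρ σ).map c) hT rfl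
  have hp1 : 1 < p := (Fact.out : p.Prime).one_lt
  have hAdd : IsAdd (Al s) (fun z => ((φ z : ℝ) : ℂ)) := by
    rw [hφ]
    exact isAdd_lg s p π
  have hroot : ∀ a, T.charpoly.IsRoot a → Al s a := by
    intro a ha
    obtain ⟨j, b, hb, hsb⟩ := hroots a ha
    obtain ⟨h1, h2⟩ := hR.weil p hpS v hv j
    exact ⟨b, (hARI.2 (Pol v j) p j h1 h2 b hb).1, hsb⟩
  have hφs : ∀ a, φ (s a) = -Real.logb p ‖π a‖ := by
    intro a
    rw [hφ, lg_apply]
  have hμA : Al s ((p : ℂ) ^ 2) := by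
    refine ⟨(p : AlgebraicClosure ℚ) ^ 2, ?_, ?_⟩
    · have : (p : AlgebraicClosure ℚ) ≠ 0 := by
        exact_mod_cast (by omega : p ≠ 0)
      exact pow_ne_zero 2 this
    · rw [map_pow, map_natCast]
  have hμφ : φ ((p : ℂ) ^ 2) = 2 := by
    have h1 : (p : ℂ) ^ 2 = s ((p : AlgebraicClosure ℚ) ^ 2) := by
      rw [map_pow, map_natCast]
    have hpr : (1 : ℝ) < p := by exact_mod_cast hp1
    rw [h1, hφs, map_pow, map_natCast, norm_pow, norm_p, Real.logb_pow, Real.logb_inv,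
      Real.logb_self_eq_one hpr]
    norm_num
  have hnewt : ∀ j, (blk X.deg j T).charpoly.roots.map φ = newton p (Pol v j) := by
    intro j
    rw [hchar j, hARI.1 (Pol v j) ℂ s, Multiset.map_map]
    unfold newton
    rw [hARI.1 (Pol v j) (PadicAlgCl p) π, Multiset.map_map]
    apply Multiset.map_congr rfl
    intro a _
    exact hφs a
  have hlies : ∀ j, LiesAbove ((blk X.deg j T).charpoly.roots.map φ) (X.hodge j) := by
    intro j
    rw [hnewt j]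
    exact hR.mazur p hpS v hv j
  have hsum : ((blk X.deg 2 T).charpoly.roots.map fun a => (φ a - 1) ^ 2).sum = 2 := by
    have h1 : ((blk X.deg 2 T).charpoly.roots.map fun a => (φ a - 1) ^ 2) =
        (newton p (Pol v 2)).map fun x => (x - 1) ^ 2 := by
      rw [← hnewt 2, Multiset.map_map]
      rfl
    rw [h1]
    obtain ⟨h2, h3⟩ := hR.weil p hpS v hv 2
    refine hNWT (Pol v 2) p (Fintype.card {a // X.deg a = 2}) hX.betti h2 ?_ h3 ?_ hord
    · have h4 := congrArg Polynomial.natDegree (hchar 2)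
      rw [Matrix.charpoly_natDegree_eq_dim, h2.natDegree_map] at h4
      exact h4.symm
    · rw [← hX.hodge_two]
      exact hR.mazur p hpS v hv 2
  obtain ⟨N, hN⟩ := (hFUN ℂ ι (fun a => ((φ a : ℝ) : ℂ)) T).1
  have h1 := hSSE ι X hX T ((ρ σ).map c) N φ (Al s) ((p : ℂ) ^ 2) hTT' hgr hAdd hroot hμA hμφ hsim
    heq hlies hsum hN j₀
  have h2 := hMEQ _ _ (hlies j₀) h1
  rwa [hnewt j₀] at h2

end Pool.Agent.NH56.HO
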