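import Pool.Agent.NH56.HO.Stm
import Pool.Agent.NH56.HY.Laa

/-!
# Density of the ordinary places: assembly
-/

set_option autoImplicit false

namespace Pool.Agent.NH56.HO

open Matrix Polynomial Filter Topology NumberField IsDedekindDomain Pool.Agent.NH56.HY

theorem dens_mono {K : Type} [Field K] [NumberField K] {P Q : HeightOneSpectrum (𝓞 K) → Prop}
    (h : ∀ v, P v → Q v) (N : ℕ) : dens P N ≤ dens Q N := by
  unfold dens
  refine div_le_div_of_nonneg_right ?_ (Nat.cast_nonneg _)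
  have hfin : Finite {v : HeightOneSpectrum (𝓞 K) // Ideal.absNorm v.asIdeal ≤ N ∧ Q v} := by
    have h1 : {I : Ideal (𝓞 K) | Ideal.absNorm I ≤ N}.Finite := Ideal.finite_setOfPred_absNorm_le N
    have : Finite {I : Ideal (𝓞 K) | Ideal.absNorm I ≤ N} := h1
    refine Finite.of_injective (fun v : {v : HeightOneSpectrum (𝓞 K) //
      Ideal.absNorm v.asIdeal ≤ N ∧ Q v} => (⟨v.1.asIdeal, v.2.1⟩ :
        {I : Ideal (𝓞 K) | Ideal.absNorm I ≤ N})) ?_
    intro v w hvw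
    apply Subtype.ext
    apply HeightOneSpectrum.ext
    exact congrArg Subtype.val hvw
  have h2 : Nat.card {v : HeightOneSpectrum (𝓞 K) // Ideal.absNorm v.asIdeal ≤ N ∧ P v} ≤
      Nat.card {v : HeightOneSpectrum (𝓞 K) // Ideal.absNorm v.asIdeal ≤ N ∧ Q v} :=
    Nat.card_le_card_of_injective (fun v => ⟨v.1, v.2.1, h _ v.2.2⟩) (by
      intro v w hvw
      apply Subtype.ext
      have := congrArg Subtype.val hvw
      exact this)
  exact_mod_cast h2

theorem t_ORF (hONE : S_ONE) (hNUS : S_NUS) (hDEN : S_DEN) : S_ORF := by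
  intro K _ _ ℓ _ I _ _ ι _ _ X S χ Pol ρ hX hR hHT U hUn hUo hU
  -- the upper bound
  have h1 := hDEN K ℓ Empty (fun _ => Unit) S 1 (fun i => i.elim) (fun i => i.elim)
    continuous_const (fun i => i.elim) (fun i => i.elim) (fun i => i.elim) (fun i => i.elim)
    U hUn hUo (fun i => i.elim)
  rcases isEmpty_or_nonempty I with hI | ⟨⟨i₀⟩⟩
  · refine h1.congr fun N => ?_
    congr 1
    funext v
    apply propext
    refine and_congr_right fun _ => ⟨?_, ?_⟩
    · rintro ⟨p, hp, hpS, hv, -⟩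
      exact ⟨p, ⟨hp⟩, hpS, hv, fun i => hI.elim i⟩
    · rintro ⟨p, hp, hpS, hv, -⟩
      exact ⟨p, hp.out, hpS, hv, fun i => i.elim⟩
  have h2 := hDEN K ℓ I (fun i => {a // (X i).deg a = 2}) S χ
    (fun i => blkHom (X i).deg 2 (ρ i) (hR i).graded) (fun i v => Pol i v 2)
    (hR i₀).continuous.2 (fun i => continuous_blk (X i).deg 2 (ρ i) (hR i).continuous.1)
    (fun i => by have := (hX i).betti; omega) (fun i p hp hpS v hv => by
      haveI : Fact p.Prime := ⟨hp⟩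
      exact ⟨((hR i).weil p hpS v hv 2).1, ((hR i).weil p hpS v hv 2).2, fun σ hσ =>
        ⟨((hR i).frobenius p hpS v hv σ hσ).1, ((hR i).frobenius p hpS v hv σ hσ).2 2⟩⟩)
    (fun i => hNUS K ℓ (ι i) (X i) S χ (Pol i) (ρ i) (hX i) (hR i) (hHT i)) U hUn hUo
    (fun i g hg => ⟨fun a b => (hU g hg).2 i a b, (hU g hg).1⟩)
  refine tendsto_of_tendsto_of_tendsto_of_le_of_le h2 h1 ?_ ?_
  · intro N
    refine dens_mono (fun v hv => ⟨hv.1, ?_⟩) N
    obtain ⟨p, hp, hpS, hvp, hord⟩ := hv.2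
    haveI : Fact p.Prime := ⟨hp⟩
    exact ⟨p, ⟨hp⟩, hpS, hvp, fun i j =>
      hONE K ℓ (ι i) (X i) S χ (Pol i) (ρ i) (hX i) (hR i) p hpS v hvp (hord i) j⟩
  · intro N
    refine dens_mono (fun v hv => ⟨hv.1, ?_⟩) N
    obtain ⟨p, hp, hpS, hvp, -⟩ := hv.2
    exact ⟨p, hp.out, hpS, hvp, fun i => i.elim⟩

end Pool.Agent.NH56.HO
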