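import Pool.Agent.NH56.HO.Stm

/-!
# HO-SPN: the eigenvectors of the conjugation by a diagonalizable matrix span
-/

set_option autoImplicit false

namespace Pool.Agent.NH56.HO.Spn

open Matrix Pool.Agent.NH56.HO

variable {F n : Type} [Field F] [Fintype n] [DecidableEq n]

/-- induction on generalized eigenvectors of an endomorphism -/
lemma ind_end [IsAlgClosed F] {V : Type} [AddCommGroup V] [Module F V] [FiniteDimensional F V]
    (f : Module.End F V) (p : V → Prop) (h0 : p 0) (hadd : ∀ x y, p x → p y → p (x + y))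
    (h : ∀ (a : F) (k : ℕ) (x : V), ((f - a • (1 : Module.End F V)) ^ k) x = 0 → p x) (x : V) :
    p x := by
  have hx : x ∈ ⨆ μ, f.maxGenEigenspace μ := by
    rw [Module.End.iSup_maxGenEigenspace_eq_top]
    trivial
  refine Submodule.iSup_induction (motive := p) _ hx ?_ h0 hadd
  intro a y hy
  obtain ⟨k, hk⟩ := (Module.End.mem_maxGenEigenspace _ _ _).1 hy
  exact h a k y hk

lemma mulVecLin_sub_pow (T : Matrix n n F) (a : F) (k : ℕ) (x : n → F) :
    ((T.mulVecLin - a • (1 : Module.End F (n → F))) ^ k) x =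
      ((T - a • (1 : Matrix n n F)) ^ k) *ᵥ x := by
  induction k generalizing x with
  | zero => simp
  | succ k ih =>
    rw [pow_succ, pow_succ, Module.End.mul_apply, ih, ← Matrix.mulVec_mulVec]
    congr 1
    simp [Matrix.sub_mulVec, Matrix.smul_mulVec]

/-- induction on generalized eigenvectors of a matrix -/
lemma ind_mat [IsAlgClosed F] (T : Matrix n n F) (p : (n → F) → Prop) (h0 : p 0)
    (hadd : ∀ x y, p x → p y → p (x + y))
    (h : ∀ (a : F) (k : ℕ) (x : n → F), ((T - a • (1 : Matrix n n F)) ^ k) *ᵥ x = 0 → p x)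
    (x : n → F) : p x := by
  refine ind_end T.mulVecLin p h0 hadd ?_ x
  intro a k y hy
  rw [mulVecLin_sub_pow] at hy
  exact h a k y hy

/-- the transpose of the inverse is diagonalizable -/
lemma diag_tr [IsAlgClosed F] {T T' : Matrix n n F} (hT : T * T' = 1) (hd : IsDiag T) :
    IsDiag T'ᵀ := by
  have hT' : T' * T = 1 := mul_eq_one_comm.1 hT
  intro b k w hw
  have h1 : ∀ u : n → F, (T'ᵀ *ᵥ w - b • w) ⬝ᵥ u = 0 := by
    intro u
    refine ind_mat T (fun u => (T'ᵀ *ᵥ w - b • w) ⬝ᵥ u = 0) (by simp) (fun x y hx hy => ?_)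
      (fun a l x hx => ?_) u
    · rw [dotProduct_add, hx, hy, add_zero]
    · have h2 := hd a l x hx
      have h3 : a • (T' *ᵥ x) = x := by
        rw [← Matrix.mulVec_smul, ← h2, Matrix.mulVec_mulVec, hT', Matrix.one_mulVec]
      by_cases ha : a = 0
      · rw [ha, zero_smul] at h3
        rw [← h3, dotProduct_zero]
      have h4 : T' *ᵥ x = a⁻¹ • x := by
        rw [← h3, smul_smul, inv_mul_cancel₀ ha, one_smul, h3]
      have e1 : (T'ᵀ *ᵥ w - b • w) ⬝ᵥ x = (a⁻¹ - b) * (w ⬝ᵥ x) := by
        rw [sub_dotProduct, Matrix.mulVec_transpose, ← Matrix.dotProduct_mulVec, h4,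
          dotProduct_smul, smul_dotProduct, smul_eq_mul, smul_eq_mul]
        ring
      have e2 : ∀ (m : ℕ), (((T'ᵀ - b • (1 : Matrix n n F)) ^ m) *ᵥ w) ⬝ᵥ x =
          (a⁻¹ - b) ^ m * (w ⬝ᵥ x) := by
        intro m
        have e3 : ((T'ᵀ - b • (1 : Matrix n n F)) ^ m) = ((T' - b • (1 : Matrix n n F)) ^ m)ᵀ := by
          rw [Matrix.transpose_pow, Matrix.transpose_sub, Matrix.transpose_smul,
            Matrix.transpose_one]
        have e4 : ∀ j : ℕ, ((T' - b • (1 : Matrix n n F)) ^ j) *ᵥ x = (a⁻¹ - b) ^ j • x := by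
          intro j
          induction j with
          | zero => simp
          | succ j ih =>
            rw [pow_succ', ← Matrix.mulVec_mulVec, ih, Matrix.mulVec_smul, Matrix.sub_mulVec,
              Matrix.smul_mulVec, Matrix.one_mulVec, h4, ← sub_smul, smul_smul, pow_succ]
        rw [e3, Matrix.mulVec_transpose, ← Matrix.dotProduct_mulVec, e4, dotProduct_smul,
          smul_eq_mul]
      rw [e1]
      have e5 := e2 k
      rw [hw, zero_dotProduct] at e5
      rcases mul_eq_zero.1 e5.symm with h | h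
      · rw [pow_eq_zero_iff (n := k) ?_] at h
        · rw [h, zero_mul]
        · rintro rfl
          simp at h
      · rw [h, mul_zero]
  have h2 : T'ᵀ *ᵥ w - b • w = 0 := by
    funext i
    have := h1 (Pi.single i 1)
    simpa using this
  exact sub_eq_zero.1 h2

theorem main [IsAlgClosed F] (T T' : Matrix n n F) (hT : T * T' = 1) (hd : IsDiag T)
    (x : Matrix n n F) :
    x ∈ Submodule.span F {y : Matrix n n F | ∃ t : F, T * y * T' = t • y} := by
  have h1 : ∀ w u : n → F, vecMulVec u w ∈
      Submodule.span F {y : Matrix n n F | ∃ t : F, T * y * T' = t • y} := by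
    intro w
    refine ind_mat T'ᵀ (fun w => ∀ u : n → F, vecMulVec u w ∈
      Submodule.span F {y : Matrix n n F | ∃ t : F, T * y * T' = t • y}) ?_ ?_ ?_ w
    · intro u
      rw [vecMulVec_zero]
      exact zero_mem _
    · intro w1 w2 h1 h2 u
      rw [vecMulVec_add]
      exact add_mem (h1 u) (h2 u)
    · intro b k w hw u
      have hb := diag_tr hT hd b k w hw
      rw [Matrix.mulVec_transpose] at hb
      refine ind_mat T (fun u => vecMulVec u w ∈
        Submodule.span F {y : Matrix n n F | ∃ t : F, T * y * T' = t • y}) ?_ ?_ ?_ u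
      · rw [zero_vecMulVec]
        exact zero_mem _
      · intro u1 u2 h1 h2
        rw [add_vecMulVec]
        exact add_mem h1 h2
      · intro a l u hu
        have ha := hd a l u hu
        refine Submodule.subset_span ⟨a * b, ?_⟩
        rw [mul_vecMulVec, vecMulVec_mul, ha, hb]
        ext i j
        simp only [vecMulVec_apply, Pi.smul_apply, smul_eq_mul, Matrix.smul_apply]
        ring
  have h2 : x = ∑ j, vecMulVec (fun i => x i j) (Pi.single j 1) := by
    ext i j
    rw [Matrix.sum_apply]
    simp [vecMulVec_apply, Pi.single_apply]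
  rw [h2]
  exact Submodule.sum_mem _ fun j _ => h1 _ _

end Pool.Agent.NH56.HO.Spn

namespace Pool.Agent.NH56.HO

/-- **SPN** -/
theorem t_SPN : S_SPN := by
  intro F _ _ n _ _ T T' hT hd x
  exact Spn.main T T' hT hd x

end Pool.Agent.NH56.HO
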