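import Pool.Agent.NH56.HO.Stm
import Pool.Agent.NH56.HY.Val

/-!
# HO-SSE: at an ordinary place the sums of the squares of the slopes agree in all degrees

Adapted from the proof of `t_VAL` by helper89.
-/

set_option autoImplicit false

namespace Pool.Agent.NH56.HO

open Matrix Polynomial Filter Topology NumberField IsDedekindDomain Pool.Agent.NH56.HY

open Pool.Agent.NH56.HY.ValH89 in
theorem t_SSE : S_FUN → S_ADJ → S_MAJ → S_BAS → S_PER → S_VAL → S_SSE := by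
  intro hFUN hADJ hMAJ hBAS _ hVAL
  intro ι _ _ X hX T T' N φ A μ hTT hgT hA hroots hAμ hφμ hq hequiv hLA h2 hN
  have hval := hVAL ι X hX T T' N φ A μ hTT hgT hA hroots hAμ hφμ hq hequiv hLA h2 hN
  obtain ⟨-, -, -, -, -, -, hgr, -, c, htr⟩ := hBAS ι X hX ℂ
  have hHd : X.H ℂ = Matrix.diagonal fun a => (X.deg a : ℂ) := rfl
  have hgH : ∀ {M : Matrix ι ι ℂ}, IsGraded X.deg M ↔ M * X.H ℂ = X.H ℂ * M :=
    fun {M} => graded_iff M
  have hgHH : IsGraded X.deg (X.H ℂ) := hgH.2 rfl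
  -- inverse
  have hT'T : T' * T = 1 := mul_eq_one_comm.1 hTT
  have hgT' : IsGraded X.deg T' := by
    rw [hgH]
    have h1 := hgH.1 hgT
    calc T' * X.H ℂ = T' * (X.H ℂ * T) * T' := by
          rw [Matrix.mul_assoc, Matrix.mul_assoc, hTT, Matrix.mul_one]
      _ = T' * (T * X.H ℂ) * T' := by rw [h1]
      _ = X.H ℂ * T' := by rw [← Matrix.mul_assoc, hT'T, Matrix.one_mul]
  -- `N` is graded
  obtain ⟨-, hFN⟩ := hFUN ℂ ι (fun a => ((φ a : ℝ) : ℂ)) T
  obtain ⟨hint, -, -, -⟩ := hFN N hN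
  have hgN : IsGraded X.deg N := by
    rw [hgH]
    exact (hint ι T N (X.H ℂ) hN (hgH.1 hgT).symm).symm
  have hfj : ∀ j, IsFn (fun a => ((φ a : ℝ) : ℂ)) (blk X.deg j T) (blk X.deg j N) :=
    fun j => fn_blk hgT hgN hN j
  set T₂ := blk X.deg 2 T with hT₂
  set T₂' := blk X.deg 2 T' with hT₂'
  set N₂ := blk X.deg 2 N with hN₂
  set q := X.qF ℂ with hqdef
  have hTT₂ : T₂ * T₂' = 1 := by rw [hT₂, hT₂', ← blk_mul hgT, hTT, blk_one]
  have hTT₂' : T₂' * T₂ = 1 := mul_eq_one_comm.1 hTT₂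
  have hroots₂ : ∀ a, T₂.charpoly.IsRoot a → A a := fun a ha => hroots a (root_blk hgT 2 ha)
  -- (a)
  obtain ⟨-, -, hadj3, -⟩ := hADJ ℂ A _ hA _ T₂ T₂' N₂ hTT₂ hroots₂ (hfj 2)
  have hskN : N₂ᵀ * q + q * N₂ = (2 : ℂ) • q := by
    have h := hadj3 q μ hq hAμ
    rw [h, hφμ]
    norm_num
  set n' := N₂ - 1 with hn'
  have hskn : X.IsSkew ℂ n' := by
    unfold Coh.IsSkew
    rw [hn', Matrix.transpose_sub, Matrix.transpose_one, Matrix.sub_mul, Matrix.mul_sub,
      Matrix.one_mul, Matrix.mul_one]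
    have e : N₂ᵀ * X.qF ℂ - X.qF ℂ + (X.qF ℂ * N₂ - X.qF ℂ) =
        (N₂ᵀ * q + q * N₂) - (2 : ℂ) • q := by
      rw [two_smul, hqdef]; abel
    rw [e, hskN, sub_self]
  set N' := N - (2 : ℂ)⁻¹ • X.H ℂ with hN'
  have hgN' : IsGraded X.deg N' := graded_sub hgN (graded_smul _ hgHH)
  have hNv : N' = X.δF ℂ n' := by
    rw [hN']
    nth_rewrite 1 [hval]
    rw [hn']
    abel
  -- (e)
  have hshift : ∀ (j : ℕ) (t : ℝ), IsFn (fun a => (((φ a - t) ^ 2 : ℝ) : ℂ)) (blk X.deg j T)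
      ((blk X.deg j N - (t : ℂ) • 1) * (blk X.deg j N - (t : ℂ) • 1)) := by
    intro j t a k x hx
    have h3 := hfj j a k x hx
    have h4 : (blk X.deg j N - (t : ℂ) • (1 : Matrix _ _ ℂ)) *ᵥ x = (((φ a - t : ℝ)) : ℂ) • x := by
      rw [Matrix.sub_mulVec, h3, Matrix.smul_mulVec, Matrix.one_mulVec, ← sub_smul]
      push_cast
      rfl
    rw [← Matrix.mulVec_mulVec, h4, Matrix.mulVec_smul, h4, smul_smul]
    congr 1
    push_cast
    ring
  have htrj : ∀ (j : ℕ) (t : ℝ),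
      ((blk X.deg j N - (t : ℂ) • 1) * (blk X.deg j N - (t : ℂ) • 1)).trace =
      (((((blk X.deg j T).charpoly.roots.map fun a => (φ a - t) ^ 2).sum : ℝ)) : ℂ) := by
    intro j t
    obtain ⟨-, hF⟩ := hFUN ℂ _ (fun a => (((φ a - t) ^ 2 : ℝ) : ℂ)) (blk X.deg j T)
    obtain ⟨-, h3, -, -⟩ := hF _ (hshift j t)
    rw [h3, cast_sum]
  have htrn : (n' * n').trace = 2 := by
    have h3 := htrj 2 1
    rw [h2] at h3
    have e : n' = blk X.deg 2 N - ((1 : ℝ) : ℂ) • 1 := by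
      rw [hn', hN₂, Complex.ofReal_one, one_smul]
    rw [e, h3]
    norm_num
  -- (f)
  have hblkH : ∀ j, blk X.deg j (X.H ℂ) = (j : ℂ) • 1 := by
    intro j
    ext a b
    unfold blk
    rw [hHd, Matrix.submatrix_apply, Matrix.smul_apply, Matrix.one_apply, Matrix.diagonal_apply]
    by_cases hab : a = b
    · subst hab
      rw [if_pos rfl, if_pos rfl, a.2]
      simp
    · rw [if_neg hab, if_neg (fun h => hab (Subtype.ext h)), smul_zero]
  have hblkN' : ∀ j, blk X.deg j N' = blk X.deg j N - (((j : ℝ) / 2 : ℝ) : ℂ) • 1 := by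
    intro j
    rw [hN', blk_sub, blk_smul, hblkH, smul_smul]
    congr 2
    push_cast
    ring
  have htrN' : (N' * N').trace = (((∑ j ∈ Finset.univ.image X.deg,
      ((blk X.deg j T).charpoly.roots.map fun a => (φ a - (j : ℝ) / 2) ^ 2).sum : ℝ)) : ℂ) := by
    rw [trace_blk (deg := X.deg) (N' * N')]
    push_cast
    refine Finset.sum_congr rfl fun j _ => ?_
    rw [blk_mul hgN', hblkN', htrj j ((j : ℝ) / 2)]
  have hle : ∀ j, ((blk X.deg j T).charpoly.roots.map fun a => (φ a - (j : ℝ) / 2) ^ 2).sum ≤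
      ∑ a ∈ Finset.univ.filter (fun a => X.deg a = j), ((X.hdg a : ℝ) - (X.deg a : ℝ) / 2) ^ 2 := by
    intro j
    have h3 := hLA j
    have h4 := hMAJ _ _ h3
    obtain ⟨h5, h6, -⟩ := h3
    have h7 := sum_sq_shift ((blk X.deg j T).charpoly.roots.map φ) ((j : ℝ) / 2)
    have h8 := sum_sq_shift (X.hodge j) ((j : ℝ) / 2)
    rw [Multiset.map_map] at h7
    have h9 : ((blk X.deg j T).charpoly.roots.map fun a => (φ a - (j : ℝ) / 2) ^ 2).sum ≤
        ((X.hodge j).map fun x => (x - (j : ℝ) / 2) ^ 2).sum := by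
      have e1 : ((blk X.deg j T).charpoly.roots.map fun a => (φ a - (j : ℝ) / 2) ^ 2).sum =
        ((blk X.deg j T).charpoly.roots.map ((fun x => (x - (j : ℝ) / 2) ^ 2) ∘ φ)).sum := rfl
      rw [e1, h7, h8, h5, h6]
      linarith
    refine h9.trans (le_of_eq ?_)
    unfold Coh.hodge
    rw [Multiset.map_map]
    change ∑ a ∈ Finset.univ.filter (fun a => X.deg a = j), ((X.hdg a : ℝ) - (j : ℝ) / 2) ^ 2 = _
    refine Finset.sum_congr rfl fun a ha => ?_
    rw [(Finset.mem_filter.1 ha).2]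
  -- the Hodge operator
  have hPdet : IsUnit X.P.det := (Matrix.isUnit_iff_isUnit_det _).1 hX.basis.1
  have hPP : X.P * X.P⁻¹ = 1 := Matrix.mul_nonsing_inv _ hPdet
  have hPP' : X.P⁻¹ * X.P = 1 := Matrix.nonsing_inv_mul _ hPdet
  have hgP := hX.basis.2
  have hgP' : IsGraded X.deg X.P⁻¹ := by
    rw [hgH]
    have h1 := hgH.1 hgP
    calc X.P⁻¹ * X.H ℂ = X.P⁻¹ * (X.H ℂ * X.P) * X.P⁻¹ := by
          rw [Matrix.mul_assoc, Matrix.mul_assoc, hPP, Matrix.mul_one]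
      _ = X.P⁻¹ * (X.P * X.H ℂ) * X.P⁻¹ := by rw [h1]
      _ = X.H ℂ * X.P⁻¹ := by rw [← Matrix.mul_assoc, hPP', Matrix.one_mul]
  set D' := X.D - (2 : ℂ)⁻¹ • X.H ℂ with hD'
  have hD'd : D' = X.P * Matrix.diagonal (fun a => (((X.hdg a : ℝ) - (X.deg a : ℝ) / 2 : ℝ) : ℂ)) *
      X.P⁻¹ := by
    have e1 : X.H ℂ = X.P * X.H ℂ * X.P⁻¹ := by
      rw [hgH.1 hgP, Matrix.mul_assoc, hPP, Matrix.mul_one]
    have e2 : Matrix.diagonal (fun a => (((X.hdg a : ℝ) - (X.deg a : ℝ) / 2 : ℝ) : ℂ)) =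
        Matrix.diagonal (fun a => (X.hdg a : ℂ)) - (2 : ℂ)⁻¹ • X.H ℂ := by
      rw [hHd, ← Matrix.diagonal_smul, Matrix.diagonal_sub]
      congr 1
      funext a
      rw [Pi.smul_apply, smul_eq_mul]
      push_cast
      ring
    rw [e2, Matrix.mul_sub, Matrix.sub_mul, Matrix.mul_smul, Matrix.smul_mul, ← e1, hD']
    rfl
  have htrD : (D' * D').trace = (((∑ a, ((X.hdg a : ℝ) - (X.deg a : ℝ) / 2) ^ 2 : ℝ)) : ℂ) := by
    rw [hD'd, trace_conj X.P X.P⁻¹ hPP']
    push_cast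
    rfl
  obtain ⟨hsk, hver⟩ := hX.verbitsky
  have hD'v : D' = X.δF ℂ (blk X.deg 2 X.D - 1) := by
    rw [hD']
    nth_rewrite 1 [hver]
    abel
  have hd2 : blk X.deg 2 X.D - 1 = blk X.deg 2 X.P *
      Matrix.diagonal (fun a : {a // X.deg a = 2} => (((X.hdg a.1 : ℝ) - 1 : ℝ) : ℂ)) *
      blk X.deg 2 X.P⁻¹ := by
    have hgd : IsGraded X.deg (Matrix.diagonal (fun a => (X.hdg a : ℂ))) := by
      intro a b hab
      exact Matrix.diagonal_apply_ne _ (fun h => hab (by rw [h]))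
    have e1 : blk X.deg 2 X.D = blk X.deg 2 X.P *
        blk X.deg 2 (Matrix.diagonal (fun a => (X.hdg a : ℂ))) * blk X.deg 2 X.P⁻¹ := by
      unfold Coh.D
      rw [blk_mul (graded_mul hgP hgd), blk_mul hgP]
    have e2 : Matrix.diagonal (fun a : {a // X.deg a = 2} => (((X.hdg a.1 : ℝ) - 1 : ℝ) : ℂ)) =
        blk X.deg 2 (Matrix.diagonal (fun a => (X.hdg a : ℂ))) - 1 := by
      ext a b
      rw [Matrix.sub_apply]
      unfold blk
      rw [Matrix.submatrix_apply, Matrix.diagonal_apply, Matrix.diagonal_apply, Matrix.one_apply]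
      by_cases hab : a = b
      · subst hab
        rw [if_pos rfl, if_pos rfl, if_pos rfl]
        push_cast
        ring
      · rw [if_neg hab, if_neg hab, if_neg (fun h => hab (Subtype.ext h)), sub_zero]
    have e3 : blk X.deg 2 X.P * blk X.deg 2 X.P⁻¹ = 1 := by
      rw [← blk_mul hgP, hPP, blk_one]
    rw [e2, Matrix.mul_sub, Matrix.sub_mul, Matrix.mul_one, e3, ← e1]
  have htrd : ((blk X.deg 2 X.D - 1) * (blk X.deg 2 X.D - 1)).trace = 2 := by
    have e3 : blk X.deg 2 X.P⁻¹ * blk X.deg 2 X.P = 1 := by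
      rw [← blk_mul hgP', hPP', blk_one]
    rw [hd2, trace_conj _ _ e3]
    have h3 : ((X.hodge 2).map fun x => (x - 1) ^ 2).sum = 2 := by
      rw [hX.hodge_two]
      simp only [Multiset.map_cons, Multiset.sum_cons, Multiset.map_replicate,
        Multiset.sum_replicate]
      norm_num
    have h4 : ((X.hodge 2).map fun x => (x - 1) ^ 2).sum =
        ∑ a : {a // X.deg a = 2}, ((X.hdg a.1 : ℝ) - 1) ^ 2 := by
      unfold Coh.hodge
      rw [Multiset.map_map]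
      change ∑ a ∈ Finset.univ.filter (fun a => X.deg a = 2), ((X.hdg a : ℝ) - 1) ^ 2 = _
      rw [Finset.sum_subtype (p := fun c => X.deg c = 2) _ (by intro x; simp)]
    have h5 : (((∑ a : {a // X.deg a = 2}, ((X.hdg a.1 : ℝ) - 1) ^ 2 : ℝ)) : ℂ) = 2 := by
      rw [← h4, h3]
      norm_num
    rw [← h5]
    push_cast
    rfl
  have h2c : ((∑ a, ((X.hdg a : ℝ) - (X.deg a : ℝ) / 2) ^ 2 : ℝ)) = 2 * (c : ℝ) := by
    have h3 := htr _ _ hsk hsk
    rw [← hD'v, htrD, htrd] at h3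
    have h4 : (algebraMap ℚ ℂ c) * 2 = ((2 * (c : ℝ) : ℝ) : ℂ) := by
      rw [eq_ratCast]
      push_cast
      ring
    rw [h4] at h3
    exact_mod_cast h3
  -- conclusion
  have htr1 : (N' * N').trace = (algebraMap ℚ ℂ c) * 2 := by
    rw [hNv, htr n' n' hskn hskn, htrn]
  have hsum : ∑ j ∈ Finset.univ.image X.deg,
      ((blk X.deg j T).charpoly.roots.map fun a => (φ a - (j : ℝ) / 2) ^ 2).sum =
      ∑ j ∈ Finset.univ.image X.deg, ∑ a ∈ Finset.univ.filter (fun a => X.deg a = j),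
        ((X.hdg a : ℝ) - (X.deg a : ℝ) / 2) ^ 2 := by
    have h4 : (algebraMap ℚ ℂ c) * 2 = ((2 * (c : ℝ) : ℝ) : ℂ) := by
      rw [eq_ratCast]
      push_cast
      ring
    have h5 : (∑ j ∈ Finset.univ.image X.deg,
      ((blk X.deg j T).charpoly.roots.map fun a => (φ a - (j : ℝ) / 2) ^ 2).sum : ℝ) =
        2 * (c : ℝ) := by
      have h6 := htrN'
      rw [htr1, h4] at h6
      exact_mod_cast h6.symm
    rw [h5, ← h2c]
    exact (Finset.sum_fiberwise_of_maps_to (s := Finset.univ) (t := Finset.univ.image X.deg)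
      (g := X.deg) (fun i _ => Finset.mem_image_of_mem _ (Finset.mem_univ i)) _).symm
  have heq := (Finset.sum_eq_sum_iff_of_le fun j _ => hle j).1 hsum
  intro j
  by_cases hj : j ∈ Finset.univ.image X.deg
  · have h1 := heq j hj
    obtain ⟨h5, h6, -⟩ := hLA j
    have h7 := sum_sq_shift ((blk X.deg j T).charpoly.roots.map φ) ((j : ℝ) / 2)
    have h8 := sum_sq_shift (X.hodge j) ((j : ℝ) / 2)
    have h9 : ((X.hodge j).map fun x => (x - (j : ℝ) / 2) ^ 2).sum =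
        ∑ a ∈ Finset.univ.filter (fun a => X.deg a = j),
          ((X.hdg a : ℝ) - (X.deg a : ℝ) / 2) ^ 2 := by
      unfold Coh.hodge
      rw [Multiset.map_map]
      change ∑ a ∈ Finset.univ.filter (fun a => X.deg a = j), ((X.hdg a : ℝ) - (j : ℝ) / 2) ^ 2 = _
      refine Finset.sum_congr rfl fun a ha => ?_
      rw [(Finset.mem_filter.1 ha).2]
    have e1 : (((blk X.deg j T).charpoly.roots.map φ).map fun x => (x - (j : ℝ) / 2) ^ 2).sum =
        ((blk X.deg j T).charpoly.roots.map fun a => (φ a - (j : ℝ) / 2) ^ 2).sum := by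
      rw [Multiset.map_map]
      rfl
    rw [e1, h1, ← h9, h8, h5, h6] at h7
    linarith
  · have h1 : X.hodge j = 0 := by
      unfold Coh.hodge
      have h3 : (Finset.univ.filter fun a => X.deg a = j) = ∅ := by
        rw [Finset.filter_eq_empty_iff]
        intro a _ h
        exact hj (Finset.mem_image.2 ⟨a, Finset.mem_univ a, h⟩)
      rw [h3]
      rfl
    have h3 := (hLA j).1
    rw [h1, Multiset.card_zero, Multiset.card_eq_zero] at h3
    rw [h3, h1]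

end Pool.Agent.NH56.HO
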