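import Pool.Agent.NH56.HO.Stm
import Pool.Agent.NH56.HY.Adj

/-!
# HO-SSM: semisimplicity in degree two implies semisimplicity in all degrees
-/

set_option autoImplicit false
set_option linter.unusedSectionVars false

namespace Pool.Agent.NH56.HO

open Matrix Pool.Agent.NH56.HY Pool.Agent.NH56.HY.Adj

namespace SsmAux

section graded

variable {ι : Type} [Fintype ι] [DecidableEq ι] {F : Type} [Field F] {deg : ι → ℕ}

theorem blk_mul {M : Matrix ι ι F} (hM : IsGraded deg M) (M' : Matrix ι ι F) (j : ℕ) :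
    blk deg j (M * M') = blk deg j M * blk deg j M' := by
  ext a b
  unfold blk
  rw [Matrix.submatrix_apply, Matrix.mul_apply, Matrix.mul_apply]
  have h : ∀ c : ι, c ∉ (Finset.univ.filter fun c => deg c = j) → M a.1 c * M' c b.1 = 0 := by
    intro c hc
    rw [hM a.1 c, zero_mul]
    intro h
    apply hc
    rw [Finset.mem_filter]
    exact ⟨Finset.mem_univ _, by rw [← h]; exact a.2⟩
  rw [← Finset.sum_subset (Finset.subset_univ (Finset.univ.filter fun c => deg c = j))
    (fun c _ hc => h c hc)]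
  rw [Finset.sum_subtype (p := fun c => deg c = j) _ (by intro x; simp)]
  rfl

theorem blk_one (j : ℕ) : blk deg j (1 : Matrix ι ι F) = 1 := by
  ext a b
  unfold blk
  rw [Matrix.submatrix_apply, Matrix.one_apply, Matrix.one_apply]
  simp only [Subtype.ext_iff]

theorem graded_comm {M : Matrix ι ι F} (h : IsGraded deg M) :
    M * Matrix.diagonal (fun a => (deg a : F)) = Matrix.diagonal (fun a => (deg a : F)) * M := by
  ext a b
  rw [Matrix.mul_diagonal, Matrix.diagonal_mul]
  by_cases hab : deg a = deg b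
  · rw [hab, mul_comm]
  · rw [h a b hab, zero_mul, mul_zero]

end graded

section fn

variable {F : Type} [Field F] [IsAlgClosed F] {n : Type} [Fintype n] [DecidableEq n]

theorem fn_comm (hFUN : S_FUN) {T s : Matrix n n F} (hs : IsFn id T s) {B : Matrix n n F}
    (h : B * T = T * B) : B * s = s * B :=
  ((hFUN F n id T).2 s hs).1 n T s B hs h

theorem fn_unique (hFUN : S_FUN) {φ : F → F} {T N N' : Matrix n n F} (h : IsFn φ T N)
    (h' : IsFn φ T N') : N = N' := by
  have := ((hFUN F n φ T).2 N h).1 n T N' 1 h' (by rw [one_mul, mul_one])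
  rwa [one_mul, mul_one] at this

omit [IsAlgClosed F] in
theorem pow_fn {T s : Matrix n n F} (hs : IsFn id T s) (m : ℕ) :
    IsFn (fun a => a ^ m) T (s ^ m) := by
  intro a k x hx
  have h1 := hs a k x hx
  simp only [id] at h1
  induction m with
  | zero => simp
  | succ m ih =>
    rw [pow_succ, ← Matrix.mulVec_mulVec, h1, Matrix.mulVec_smul, ih, smul_smul]
    congr 1
    ring

omit [IsAlgClosed F] in
theorem fn_of_pow {T N : Matrix n n F} {m : ℕ} (hN : IsFn id (T ^ m) N) :
    IsFn (fun a => a ^ m) T N := by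
  intro a k x hx
  refine hN (a ^ m) k x ?_
  have hc : Commute T (a • (1 : Matrix n n F)) := by
    unfold Commute SemiconjBy
    rw [Matrix.mul_smul, Matrix.smul_mul, mul_one, one_mul]
  have e1 : T ^ m - a ^ m • (1 : Matrix n n F) =
      (∑ i ∈ Finset.range m, T ^ i * (a • (1 : Matrix n n F)) ^ (m - 1 - i)) *
        (T - a • (1 : Matrix n n F)) := by
    rw [hc.geom_sum₂_mul, smul_pow, one_pow]
  have hc2 : Commute (∑ i ∈ Finset.range m, T ^ i * (a • (1 : Matrix n n F)) ^ (m - 1 - i))
      (T - a • (1 : Matrix n n F)) := by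
    refine Commute.sum_left _ _ _ fun i _ => ?_
    refine Commute.mul_left ?_ ?_
    · exact ((Commute.refl T).sub_right hc).pow_left i
    · exact (hc.symm.sub_right (Commute.refl _)).pow_left _
  rw [e1, hc2.mul_pow, ← Matrix.mulVec_mulVec, hx, Matrix.mulVec_zero]

/-- a matrix which commutes with a power of `T` commutes with the power of the diagonalizable part -/
theorem pow_comm (hFUN : S_FUN) {T s : Matrix n n F} (hs : IsFn id T s) {m : ℕ}
    {B : Matrix n n F} (h : B * T ^ m = T ^ m * B) : B * s ^ m = s ^ m * B := by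
  obtain ⟨N, hN⟩ := (hFUN F n id (T ^ m)).1
  have h1 : N = s ^ m := fn_unique hFUN (fn_of_pow hN) (pow_fn hs m)
  have h2 := fn_comm hFUN hN h
  rwa [h1] at h2

theorem nilp {T s : Matrix n n F} (hs : IsFn id T s) : IsNilpotent (T - s) := by
  have h1 : ∀ x : n → F, ∃ k : ℕ, ((T - s) ^ k) *ᵥ x = 0 := by
    refine ind_mat T (fun x => ∃ k : ℕ, ((T - s) ^ k) *ᵥ x = 0) ⟨0, by simp⟩ ?_ ?_
    · rintro x y ⟨k, hk⟩ ⟨l, hl⟩
      refine ⟨k + l, ?_⟩
      rw [Matrix.mulVec_add, pow_add, ← Matrix.mulVec_mulVec y, hl, Matrix.mulVec_zero,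
        add_zero, ← pow_add, add_comm k l, pow_add, ← Matrix.mulVec_mulVec, hk,
        Matrix.mulVec_zero]
    · intro a k x hx
      have h2 : ∀ j : ℕ, ((T - s) ^ j) *ᵥ x = ((T - a • (1 : Matrix n n F)) ^ j) *ᵥ x := by
        intro j
        induction j with
        | zero => simp
        | succ j ih =>
          rw [pow_succ', ← Matrix.mulVec_mulVec, ih, pow_succ' (T - a • (1 : Matrix n n F)),
            ← Matrix.mulVec_mulVec]
          have h3 : ((T - a • (1 : Matrix n n F)) ^ k) *ᵥ
              (((T - a • (1 : Matrix n n F)) ^ j) *ᵥ x) = 0 := by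
            rw [Matrix.mulVec_mulVec, ← pow_add, add_comm, pow_add, ← Matrix.mulVec_mulVec, hx,
              Matrix.mulVec_zero]
          have h4 := hs a k _ h3
          simp only [id] at h4
          rw [Matrix.sub_mulVec, h4, Matrix.sub_mulVec, Matrix.smul_mulVec, Matrix.one_mulVec]
      exact ⟨k, by rw [h2, hx]⟩
  choose k hk using h1
  refine ⟨∑ i, k (Pi.single i 1), ?_⟩
  ext i j
  have h2 : ((T - s) ^ (∑ i, k (Pi.single i 1))) *ᵥ (Pi.single j 1) = 0 := by
    have h3 : k (Pi.single j 1) ≤ ∑ i, k (Pi.single i 1) :=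
      Finset.single_le_sum (f := fun i => k (Pi.single i 1)) (fun _ _ => Nat.zero_le _)
        (Finset.mem_univ j)
    rw [← Nat.sub_add_cancel h3, pow_add, ← Matrix.mulVec_mulVec, hk, Matrix.mulVec_zero]
  have h4 := congrFun h2 i
  rw [Matrix.mulVec_single_one] at h4
  exact h4

end fn

/-- a unipotent element of finite order is trivial -/
theorem unip {F : Type} [Field F] [CharZero F] {n : Type} [Fintype n] [DecidableEq n]
    {u : Matrix n n F} (hu : IsNilpotent (u - 1)) {m : ℕ} (hm : 0 < m) (h : u ^ m = 1) : u = 1 := by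
  have hg : ∀ i : ℕ, (∑ j ∈ Finset.range i, u ^ j) * (u - 1) = u ^ i - 1 := fun i => geom_sum_mul u i
  have hr : IsNilpotent ((∑ i ∈ Finset.range m, ∑ j ∈ Finset.range i, u ^ j) * (u - 1)) := by
    refine Commute.isNilpotent_mul_left ?_ hu
    refine Commute.sum_left _ _ _ fun i _ => Commute.sum_left _ _ _ fun j _ => ?_
    exact ((Commute.refl u).sub_right (Commute.one_right u)).pow_left j
  have e1 : ∑ i ∈ Finset.range m, u ^ i = (m : F) • (1 : Matrix n n F) +
      (∑ i ∈ Finset.range m, ∑ j ∈ Finset.range i, u ^ j) * (u - 1) := by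
    rw [Finset.sum_mul, Finset.sum_congr rfl fun i _ => hg i, Finset.sum_sub_distrib,
      Finset.sum_const, Finset.card_range, ← Nat.cast_smul_eq_nsmul F m (1 : Matrix n n F)]
    abel
  have hU : IsUnit ((m : F) • (1 : Matrix n n F)) := by
    have hm' : (m : F) ≠ 0 := by exact_mod_cast hm.ne'
    refine ⟨⟨(m : F) • 1, (m : F)⁻¹ • 1, ?_, ?_⟩, rfl⟩
    · rw [smul_mul_smul_comm, mul_inv_cancel₀ hm', mul_one, one_smul]
    · rw [smul_mul_smul_comm, inv_mul_cancel₀ hm', mul_one, one_smul]
  have hC : Commute ((∑ i ∈ Finset.range m, ∑ j ∈ Finset.range i, u ^ j) * (u - 1))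
      ((m : F) • (1 : Matrix n n F)) := by
    unfold Commute SemiconjBy
    rw [Matrix.mul_smul, Matrix.smul_mul, mul_one, one_mul]
  have h1 : IsUnit (∑ i ∈ Finset.range m, u ^ i) := by
    rw [e1]
    exact hr.isUnit_add_left_of_commute hU hC
  have h2 := hg m
  rw [h, sub_self] at h2
  exact sub_eq_zero.1 (h1.mul_right_eq_zero.1 h2)

end SsmAux

open SsmAux

theorem t_SSM : S_FUN → S_BAS → S_NDG → S_SPN → S_SSM := by
  intro hFUN hBAS hNDG hSPN ι _ _ X hX F _ _ _ T T' μ m hTT hgT hm hq hequiv hcom hdiag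
  obtain ⟨hadd, hsmul, hmap, hself, -, -, -, -, -⟩ := hBAS ι X hX F
  have hT'T : T' * T = 1 := mul_eq_one_comm.1 hTT
  -- the diagonalizable part
  obtain ⟨s, hs⟩ := (hFUN F ι id T).1
  have hTs : T * s = s * T := fn_comm hFUN hs rfl
  have hdet : s.det ≠ 0 := by
    intro h0
    obtain ⟨v, hv, hv0⟩ := Matrix.exists_mulVec_eq_zero_iff.2 h0
    obtain ⟨a, ha, ha0⟩ := ((hFUN F ι id T).2 s hs).2.2.1 0 v hv (by rw [hv0, zero_smul])
    simp only [id] at ha0
    rw [ha0] at ha
    have h1 : T.det = 0 := by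
      have := (root_iff T 0).1 ha
      obtain ⟨w, hw, hw0⟩ := this
      rw [zero_smul] at hw0
      exact Matrix.exists_mulVec_eq_zero_iff.1 ⟨w, hw, hw0⟩
    have h2 := congrArg Matrix.det hTT
    rw [Matrix.det_mul, h1, zero_mul, Matrix.det_one] at h2
    exact zero_ne_one h2
  have hsu : IsUnit s.det := isUnit_iff_ne_zero.2 hdet
  obtain ⟨s', hss'⟩ : ∃ s' : Matrix ι ι F, s * s' = 1 := ⟨s⁻¹, Matrix.mul_nonsing_inv s hsu⟩
  have hs's : s' * s = 1 := mul_eq_one_comm.1 hss'
  -- `s'` commutes with everything that commutes with `s`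
  have inv_comm : ∀ M : Matrix ι ι F, M * s = s * M → M * s' = s' * M := by
    intro M h
    calc M * s' = s' * s * (M * s') := by rw [hs's, one_mul]
      _ = s' * (s * M) * s' := by simp only [mul_assoc]
      _ = s' * (M * s) * s' := by rw [h]
      _ = s' * M * (s * s') := by simp only [mul_assoc]
      _ = s' * M := by rw [hss', mul_one]
  have hTs' : T * s' = s' * T := inv_comm T hTs
  set u := s' * T with hu
  have hu1 : IsNilpotent (u - 1) := by
    have e1 : u - 1 = s' * (T - s) := by rw [mul_sub, hs's]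
    rw [e1]
    refine Commute.isNilpotent_mul_left ?_ (nilp hs)
    unfold Commute SemiconjBy
    rw [mul_sub, sub_mul, hTs', hs's, hss']
  -- the action in degree two
  set T₂ := blk X.deg 2 T with hT₂
  set T₂' := blk X.deg 2 T' with hT₂'
  set q := X.qF F with hqdef
  have hTT₂ : T₂ * T₂' = 1 := by rw [hT₂, hT₂', ← blk_mul hgT, hTT, blk_one]
  have hTT₂' : T₂' * T₂ = 1 := mul_eq_one_comm.1 hTT₂
  have hqT : qᵀ = q := by
    rw [hqdef]
    unfold Coh.qF
    rw [← Matrix.transpose_map, hX.symm]
  have hqu : IsUnit q.det := by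
    rw [hqdef]
    unfold Coh.qF
    rw [← RingHom.mapMatrix_apply, ← RingHom.map_det]
    exact (isUnit_iff_ne_zero.2 hX.nondeg).map _
  have hqq : q * q⁻¹ = 1 := Matrix.mul_nonsing_inv q hqu
  have hTq : T₂ᵀ * q = μ • (q * T₂') := by
    calc T₂ᵀ * q = T₂ᵀ * q * T₂ * T₂' := by
          rw [Matrix.mul_assoc (T₂ᵀ * q), hTT₂, Matrix.mul_one]
      _ = _ := by rw [hq, Matrix.smul_mul]
  have hqTt : q * T₂ = μ • (T₂'ᵀ * q) := by
    have h1 : T₂'ᵀ * T₂ᵀ = 1 := by rw [← Matrix.transpose_mul, hTT₂, Matrix.transpose_one]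
    calc q * T₂ = T₂'ᵀ * T₂ᵀ * (q * T₂) := by rw [h1, Matrix.one_mul]
      _ = T₂'ᵀ * (T₂ᵀ * q * T₂) := by simp only [Matrix.mul_assoc]
      _ = _ := by rw [hq, Matrix.mul_smul]
  have hall : ∀ x, T * X.δF F x * T' = X.δF F (T₂ * x * T₂') := by
    intro x
    set xs := q⁻¹ * xᵀ * q with hxs
    have e1 : xsᵀ * q = q * x := by
      rw [hxs, Matrix.transpose_mul, Matrix.transpose_mul, Matrix.transpose_transpose, hqT,
        Matrix.transpose_nonsing_inv, hqT]
      have hqq' : q⁻¹ * q = 1 := Matrix.nonsing_inv_mul q hqu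
      rw [Matrix.mul_assoc, Matrix.mul_assoc, hqq', Matrix.mul_one]
    have e2 : q * xs = xᵀ * q := by
      rw [hxs, ← Matrix.mul_assoc, ← Matrix.mul_assoc, hqq, Matrix.one_mul]
    set y := (2 : F)⁻¹ • (x - xs) with hy
    set z := (2 : F)⁻¹ • (x + xs) with hz
    have hxyz : x = y + z := by
      rw [hy, hz, ← smul_add, sub_add_add_cancel, ← two_smul F x, smul_smul,
        inv_mul_cancel₀ (two_ne_zero), one_smul]
    have hysk : X.IsSkew F y := by
      unfold Coh.IsSkew
      rw [hy, Matrix.transpose_smul, Matrix.transpose_sub, Matrix.smul_mul, Matrix.mul_smul,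
        Matrix.sub_mul, Matrix.mul_sub, ← hqdef, e1, e2, ← smul_add]
      have : xᵀ * q - q * x + (q * x - xᵀ * q) = 0 := by abel
      rw [this, smul_zero]
    have hzsa : zᵀ * q = q * z := by
      rw [hz, Matrix.transpose_smul, Matrix.transpose_add, Matrix.smul_mul, Matrix.mul_smul,
        Matrix.add_mul, Matrix.mul_add, e1, e2, add_comm]
    have hTz : (T₂ * z * T₂')ᵀ * q = q * (T₂ * z * T₂') := by
      calc (T₂ * z * T₂')ᵀ * q = T₂'ᵀ * zᵀ * (T₂ᵀ * q) := by
            rw [Matrix.transpose_mul, Matrix.transpose_mul]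
            simp only [Matrix.mul_assoc]
        _ = T₂'ᵀ * (zᵀ * q) * (μ • T₂') := by
            rw [hTq]
            simp only [Matrix.mul_assoc, Matrix.mul_smul]
        _ = (μ • (T₂'ᵀ * q)) * z * T₂' := by
            rw [hzsa]
            simp only [Matrix.mul_assoc, Matrix.mul_smul, Matrix.smul_mul]
        _ = _ := by rw [← hqTt]; simp only [Matrix.mul_assoc]
    have hz0 : X.δF F z = 0 := hself z hzsa
    have hTz0 : X.δF F (T₂ * z * T₂') = 0 := hself _ hTz
    have h3 : X.δF F x = X.δF F y := by rw [hxyz, hadd, hz0, add_zero]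
    have h4 : X.δF F (T₂ * x * T₂') = X.δF F (T₂ * y * T₂') := by
      rw [hxyz, Matrix.mul_add, Matrix.add_mul, hadd, hTz0, add_zero]
    rw [h3, h4]
    exact hequiv y hysk
  -- `u` commutes with the action
  have h00 : X.δF F 0 = 0 := by
    have := hsmul 0 0
    rwa [zero_smul, zero_smul] at this
  have hy : ∀ (t : F) y, T₂ * y * T₂' = t • y → u * X.δF F y = X.δF F y * u := by
    intro t y hty
    by_cases ht : t = 0
    · have h1 : y = 0 := by
        calc y = T₂' * T₂ * y * (T₂' * T₂) := by rw [hTT₂', one_mul, mul_one]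
          _ = T₂' * (T₂ * y * T₂') * T₂ := by simp only [mul_assoc]
          _ = 0 := by rw [hty, ht, zero_smul, mul_zero, zero_mul]
      rw [h1, h00, mul_zero, zero_mul]
    · have h1 : T * X.δF F y = t • (X.δF F y * T) := by
        have h2 := hall y
        rw [hty, hsmul] at h2
        calc T * X.δF F y = T * X.δF F y * (T' * T) := by rw [hT'T, mul_one]
          _ = (T * X.δF F y * T') * T := by simp only [mul_assoc]
          _ = _ := by rw [h2, smul_mul_assoc]
      have h2 : IsFn id (t • T) (t • s) := by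
        intro a k x hx
        have e1 : t • T - a • (1 : Matrix ι ι F) = t • (T - (t⁻¹ * a) • (1 : Matrix ι ι F)) := by
          rw [smul_sub, smul_smul, mul_inv_cancel_left₀ ht]
        rw [e1, smul_pow, Matrix.smul_mulVec] at hx
        have h3 := (smul_eq_zero.1 hx).resolve_left (pow_ne_zero k ht)
        have h4 := hs (t⁻¹ * a) k x h3
        simp only [id] at h4 ⊢
        rw [Matrix.smul_mulVec, h4, smul_smul, mul_inv_cancel_left₀ ht]
      have h3 : X.δF F y * (t • s) = s * X.δF F y := by
        refine ((hFUN F ι id (t • T)).2 (t • s) h2).1 ι T s (X.δF F y) hs ?_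
        rw [mul_smul_comm, h1]
      have h4 : X.δF F y * s' = t • (s' * X.δF F y) := by
        calc X.δF F y * s' = s' * (s * X.δF F y) * s' := by
              rw [← mul_assoc, hs's, one_mul]
          _ = s' * (X.δF F y * (t • s)) * s' := by rw [h3]
          _ = t • (s' * X.δF F y * (s * s')) := by
              rw [mul_smul_comm, mul_smul_comm, smul_mul_assoc]
              simp only [mul_assoc]
          _ = _ := by rw [hss', mul_one]
      calc u * X.δF F y = s' * (T * X.δF F y) := by rw [hu, mul_assoc]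
        _ = t • (s' * X.δF F y) * T := by
            rw [h1, mul_smul_comm, smul_mul_assoc, mul_assoc]
        _ = _ := by rw [← h4, hu, mul_assoc]
  have hux : ∀ x, u * X.δF F x = X.δF F x * u := by
    intro x
    have hx := hSPN F _ T₂ T₂' hTT₂ hdiag x
    induction hx using Submodule.span_induction with
    | mem y hy' =>
      obtain ⟨t, ht⟩ := hy'
      exact hy t y ht
    | zero => rw [h00, mul_zero, zero_mul]
    | add a b _ _ ha hb => rw [hadd, mul_add, add_mul, ha, hb]
    | smul c a _ ha => rw [hsmul, mul_smul_comm, smul_mul_assoc, ha]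
  -- `u` commutes with `H`
  have hHT : X.H F * T = T * X.H F := (graded_comm hgT).symm
  have hHs : X.H F * s = s * X.H F := fn_comm hFUN hs hHT
  have hHs' : X.H F * s' = s' * X.H F := inv_comm _ hHs
  have huH : u * X.H F = X.H F * u := by
    rw [hu, mul_assoc, ← hHT, ← mul_assoc, ← hHs', mul_assoc]
  have hz : X.Com F (u ^ m - 1) := by
    refine ⟨fun x => ?_, ?_⟩
    · rw [← hmap x]
      have h1 : Commute u (X.δF F (x.map (algebraMap ℚ F))) := hux _
      exact (h1.pow_left m).sub_left (Commute.one_left _)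
    · have h1 : Commute u (X.H F) := huH
      exact (h1.pow_left m).sub_left (Commute.one_left _)
  have hgs : (∑ j ∈ Finset.range m, u ^ j) * (u - 1) = u ^ m - 1 := geom_sum_mul u m
  have hzn : IsNilpotent (u ^ m - 1) := by
    rw [← hgs]
    refine Commute.isNilpotent_mul_left ?_ hu1
    refine Commute.sum_left _ _ _ fun j _ => ?_
    exact ((Commute.refl u).sub_right (Commute.one_right u)).pow_left j
  have hz0 : u ^ m - 1 = 0 := by
    refine (hNDG ι X hX F (u ^ m - 1) hz).2 fun B hB => ?_
    set C := B.map (algebraMap ℚ F) with hC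
    have h1 : T ^ m * C = C * T ^ m := hcom B hB
    have h2 : C * s ^ m = s ^ m * C := pow_comm hFUN hs h1.symm
    have h3 : s' ^ m * s ^ m = 1 := by
      have : Commute s' s := hs's.trans hss'.symm
      rw [← this.mul_pow, hs's, one_pow]
    have h3' : s ^ m * s' ^ m = 1 := mul_eq_one_comm.1 h3
    have h4 : C * s' ^ m = s' ^ m * C := by
      calc C * s' ^ m = s' ^ m * s ^ m * (C * s' ^ m) := by rw [h3, one_mul]
        _ = s' ^ m * (s ^ m * C) * s' ^ m := by simp only [mul_assoc]
        _ = s' ^ m * (C * s ^ m) * s' ^ m := by rw [h2]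
        _ = s' ^ m * C * (s ^ m * s' ^ m) := by simp only [mul_assoc]
        _ = s' ^ m * C := by rw [h3', mul_one]
    have h5 : u ^ m = s' ^ m * T ^ m := by
      have : Commute s' T := hTs'.symm
      rw [hu, this.mul_pow]
    have h6 : Commute (u ^ m - 1) C := by
      refine Commute.sub_left ?_ (Commute.one_left _)
      unfold Commute SemiconjBy
      rw [h5, mul_assoc, h1, ← mul_assoc, ← h4, mul_assoc]
    have h7 : IsNilpotent ((u ^ m - 1) * C) := Commute.isNilpotent_mul_right h6 hzn
    exact (Matrix.isNilpotent_trace_of_isNilpotent h7).eq_zero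
  have hu11 : u = 1 := unip hu1 hm (sub_eq_zero.1 hz0)
  have hTss : T = s := by
    calc T = s * s' * T := by rw [hss', one_mul]
      _ = s * u := by rw [hu, mul_assoc]
      _ = s := by rw [hu11, mul_one]
  intro a k x hx
  have h1 := hs a k x hx
  rw [← hTss] at h1
  exact h1

end Pool.Agent.NH56.HO
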