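import Pool.Agent.NH56.HO.Stm

/-! HO-SSX: semisimple matrices are diagonalizable over the algebraic closure. -/

set_option autoImplicit false

namespace Pool.Agent.NH56.HO

namespace SsxAux

open Matrix Polynomial

variable {k F : Type} [Field k] [Field F] [Algebra k F] {n : Type} [Fintype n] [DecidableEq n]

/-- polynomials in the extended matrix -/
theorem aeval_ext (A : Matrix n n k) (p : k[X]) :
    (aeval A p).map (algebraMap k F) = aeval (A.map (algebraMap k F)) (p.map (algebraMap k F)) := by
  have h : (algebraMap F (Matrix n n F)).comp (algebraMap k F) =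
      ((algebraMap k F).mapMatrix : Matrix n n k →+* Matrix n n F).comp
        (algebraMap k (Matrix n n k)) := by
    ext r i j
    simp only [RingHom.comp_apply, RingHom.mapMatrix_apply, Matrix.map_apply,
      Matrix.algebraMap_matrix_apply]
    split_ifs <;> simp
  exact map_aeval_eq_aeval_map h p A

theorem aeval_lin (B : Matrix n n F) (p : F[X]) :
    Matrix.toLin' (aeval B p) = aeval (Matrix.toLin' B) p := by
  have := aeval_algHom_apply (Matrix.toLinAlgEquiv' : Matrix n n F ≃ₐ[F] _).toAlgHom B p
  exact this.symm

theorem pow_lin (B : Matrix n n F) (a : F) (m : ℕ) (x : n → F) :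
    ((B - a • (1 : Matrix n n F)) ^ m) *ᵥ x =
      ((Matrix.toLin' B - a • (1 : Module.End F (n → F))) ^ m) x := by
  have h : Matrix.toLinAlgEquiv' ((B - a • (1 : Matrix n n F)) ^ m) =
      (Matrix.toLinAlgEquiv' B - a • (1 : Module.End F (n → F))) ^ m := by
    rw [map_pow, map_sub, map_smul, map_one]
  have h2 := congrArg (fun g : Module.End F (n → F) => g x) h
  exact h2

end SsxAux

open SsxAux Matrix Polynomial in
theorem t_SSX : S_SSX := by
  intro k F _ _ _ _ _ n _ _ A
  have hss : Module.End.IsSemisimple (Matrix.toLin' A) ↔ Squarefree (minpoly k A) := by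
    rw [← Matrix.minpoly_toLin']
    exact ⟨fun h => h.minpoly_squarefree, fun h =>
      Module.End.isSemisimple_of_squarefree_aeval_eq_zero h (minpoly.aeval _ _)⟩
  have hint : IsIntegral k A := Algebra.IsIntegral.isIntegral A
  rw [hss]
  constructor
  · intro h a m x hx
    have hsep : (minpoly k A).Separable := PerfectField.separable_iff_squarefree.2 h
    have hsq : Squarefree ((minpoly k A).map (algebraMap k F)) := hsep.map.squarefree
    have h0 : aeval (Matrix.toLin' (A.map (algebraMap k F)))
        ((minpoly k A).map (algebraMap k F)) = 0 := by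
      rw [← aeval_lin, ← aeval_ext, minpoly.aeval]
      simp
    have hs := Module.End.isSemisimple_of_squarefree_aeval_eq_zero hsq h0
    have hx' : x ∈ Module.End.maxGenEigenspace (Matrix.toLin' (A.map (algebraMap k F))) a := by
      rw [Module.End.mem_maxGenEigenspace]
      exact ⟨m, by rw [← pow_lin]; exact hx⟩
    rw [hs.isFinitelySemisimple.maxGenEigenspace_eq_eigenspace,
      Module.End.mem_eigenspace_iff] at hx'
    exact hx'
  · intro h g hg
    obtain ⟨q, hq⟩ := hg
    set P := minpoly k A with hP
    have hP0 : P ≠ 0 := minpoly.ne_zero hint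
    have hg0 : g ≠ 0 := by
      rintro rfl
      rw [zero_mul, zero_mul] at hq
      exact hP0 hq
    have hq0 : q ≠ 0 := by
      rintro rfl
      rw [mul_zero] at hq
      exact hP0 hq
    set f : Module.End F (n → F) := Matrix.toLin' (A.map (algebraMap k F)) with hf
    have key : ∀ x : n → F, aeval f ((g * q).map (algebraMap k F)) x = 0 := by
      intro x
      have hx : x ∈ ⨆ μ : F, f.maxGenEigenspace μ := by
        rw [Module.End.iSup_maxGenEigenspace_eq_top]; exact Submodule.mem_top
      refine Submodule.iSup_induction (fun μ : F => f.maxGenEigenspace μ)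
        (motive := fun x => aeval f ((g * q).map (algebraMap k F)) x = 0) hx ?_ ?_ ?_
      · intro μ x hx
        rw [Module.End.mem_maxGenEigenspace] at hx
        obtain ⟨m, hm⟩ := hx
        rw [hf, ← pow_lin] at hm
        have h1 : f x = μ • x := h μ m x hm
        by_cases hx0 : x = 0
        · rw [hx0, map_zero]
        have hev : f.HasEigenvector μ x := ⟨Module.End.mem_eigenspace_iff.2 h1, hx0⟩
        have hp0 : aeval f (P.map (algebraMap k F)) x = 0 := by
          rw [hf, ← aeval_lin, ← aeval_ext, hP, minpoly.aeval]
          simp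
        rw [Module.End.aeval_apply_of_hasEigenvector hev] at hp0 ⊢
        have h2 : (P.map (algebraMap k F)).eval μ = 0 := (smul_eq_zero.1 hp0).resolve_right hx0
        have h3 : ((g * q).map (algebraMap k F)).eval μ = 0 := by
          rw [hq, Polynomial.map_mul, Polynomial.map_mul, eval_mul, eval_mul] at h2
          rw [Polynomial.map_mul, eval_mul]
          rcases mul_eq_zero.1 h2 with h4 | h4
          · rw [mul_self_eq_zero.1 h4, zero_mul]
          · rw [h4, mul_zero]
        rw [h3, zero_smul]
      · rw [map_zero]
      · intro x y hx hy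
        rw [map_add, hx, hy, add_zero]
    have h5 : aeval A (g * q) = 0 := by
      have h6 : Matrix.toLin' ((aeval A (g * q)).map (algebraMap k F)) = 0 := by
        rw [aeval_ext, aeval_lin]
        exact LinearMap.ext fun x => by rw [key x]; rfl
      have h7 : (aeval A (g * q)).map (algebraMap k F) = 0 := by
        apply Matrix.toLin'.injective
        rw [h6, map_zero]
      ext i j
      have h8 := congrFun (congrFun h7 i) j
      simp only [Matrix.map_apply, Matrix.zero_apply] at h8 ⊢
      exact (map_eq_zero _).1 h8
    have h9 : P ∣ g * q := minpoly.dvd k A h5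
    have h10 : P.natDegree ≤ (g * q).natDegree :=
      natDegree_le_of_dvd h9 (mul_ne_zero hg0 hq0)
    rw [hq, natDegree_mul (mul_ne_zero hg0 hg0) hq0, natDegree_mul hg0 hg0,
      natDegree_mul hg0 hq0] at h10
    have h11 : g.natDegree = 0 := by omega
    rw [eq_C_of_natDegree_eq_zero h11] at hg0 ⊢
    exact isUnit_C.2 (isUnit_iff_ne_zero.2 fun h0 => hg0 (by rw [h0, C_0]))

end Pool.Agent.NH56.HO

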