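import Pool.Agent.NH56.HY.Main
import Pool.Agent.NH56.HO.Meq
import Pool.Agent.NH56.HO.Sse
import Pool.Agent.NH56.HO.One
import Pool.Agent.NH56.HO.Nus
import Pool.Agent.NH56.HO.Nva
import Pool.Agent.NH56.HO.Den
import Pool.Agent.NH56.HO.Ssx
import Pool.Agent.NH56.HO.Spn
import Pool.Agent.NH56.HO.Ssm
import Pool.Agent.NH56.HO.Cmu
import Pool.Agent.NH56.HO.Ssf
import Pool.Agent.NH56.HO.Orf

/-!
# Assembly
-/

set_option autoImplicit false

namespace Pool.Agent.NH56.HO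

open Pool.Agent.NH56.HY

theorem main_ORF : S_ORF := by
  have hFUN := t_FUN
  have hADJ := t_ADJ hFUN
  have hMAJ := t_MAJ
  have hBAS := t_BAS
  have hPER := t_PER hBAS
  have hNDG := t_NDG
  have hRIG := t_RIG hFUN
  have hVAL := t_VAL hFUN hADJ hMAJ hBAS hPER hNDG hRIG
  have hARI := t_ARI
  have hNWT := Pool.Agent.NH66.HY.Nwt.t_NWT hARI
  have hTRN := t_TRN hBAS hARI
  have hORD := t_ORD t_NR1 t_DG1
  have hSSE := t_SSE hFUN hADJ hMAJ hBAS hPER hVAL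
  exact t_ORF (t_ONE hFUN hARI hNWT hTRN hSSE t_MEQ) t_NUS (t_DEN (t_NVA hORD))

theorem main_SSF : S_SSF := by
  have hFUN := t_FUN
  have hADJ := t_ADJ hFUN
  have hMAJ := t_MAJ
  have hBAS := t_BAS
  have hPER := t_PER hBAS
  have hNDG := t_NDG
  have hRIG := t_RIG hFUN
  have hVAL := t_VAL hFUN hADJ hMAJ hBAS hPER hNDG hRIG
  have hKRO := t_KRO
  have hARI := t_ARI
  have hNWT := Pool.Agent.NH66.HY.Nwt.t_NWT hARI
  have hNR1 := t_NR1
  have hLOG := t_LOG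
  have hTRN := t_TRN hBAS hARI
  have hPHI := t_PHI hFUN hADJ hBAS hPER hARI hNWT hTRN hVAL
  have hEIG := t_EIG hFUN hADJ hKRO hARI hTRN hPHI
  have hDET := t_DET hFUN hADJ hKRO hARI hTRN hPHI
  have hORD := t_ORD hNR1 t_DG1
  have hUNI := t_UNI hBAS hNR1 hEIG hDET
  have hCOM := t_COM hBAS hPER hLOG
  have hSPN := t_SPN
  exact t_SSF (t_CMU hORD hUNI hCOM cft) t_NUS t_SSX (t_SSM hFUN hBAS hNDG hSPN)

end Pool.Agent.NH56.HO
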